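import Pool.Agent.H81.Balls.Defs

set_option autoImplicit false

open Classical Finset

namespace Pool.Agent.H81.Balls

variable {V : Type*}

/-- Abstract face structure on the component of `x` in `G`: every edge has two sides labelled by
faces. -/
structure FaceData [Fintype V] (G : SimpleGraph V) (x : V) (g : ℕ) where
  F : Type*
  side : Sym2 V → Bool → F
  even : ∀ (K : F → ZMod 2) (v : V), G.Reachable x v →
    ∑ u, (if G.Adj v u then K (side s(v, u) true) + K (side s(v, u) false) else 0) = 0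
  link : ∀ (J : F → ZMod 2) (v : V), G.Reachable x v →
    (∀ u, G.Adj v u → J (side s(v, u) true) = J (side s(v, u) false)) →
    ∀ u u', G.Adj v u → G.Adj v u' → J (side s(v, u) true) = J (side s(v, u') true)
  hcls : (Sym2 V → ZMod 2) →+ (Fin g → ZMod 2)
  hom : ∀ c : Sym2 V → ZMod 2, (∀ v, ∑ u, c s(v, u) = 0) →
    (∀ v u, c s(v, u) ≠ 0 → G.Adj v u ∧ G.Reachable x v) → hcls c = 0 →
    ∃ J : F → ZMod 2, ∀ v u, G.Adj v u → G.Reachable x v →
      c s(v, u) = J (side s(v, u) true) + J (side s(v, u) false)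

/-! ### Geodesic trees -/

section Tree

variable (G : SimpleGraph V)

lemma exists_par (a v : V) (h : G.Reachable v a) (hne : v ≠ a) :
    ∃ w, G.Adj v w ∧ G.dist w a + 1 = G.dist v a := by
  obtain ⟨p, hp⟩ := h.exists_walk_length_eq_dist
  cases p with
  | nil => exact absurd rfl hne
  | cons hadj q =>
    rename_i w
    refine ⟨w, hadj, ?_⟩
    have h1 : G.dist w a ≤ q.length := SimpleGraph.dist_le q
    have h2 : G.dist v a ≤ G.dist v w + G.dist w a := by
      have hr : G.Reachable w a := ⟨q⟩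
      obtain ⟨q', hq'⟩ := hr.exists_walk_length_eq_dist
      have h3 := SimpleGraph.dist_le (SimpleGraph.Walk.cons hadj q')
      have h4 : G.dist v w = 1 := SimpleGraph.dist_eq_one_iff_adj.mpr hadj
      simp only [SimpleGraph.Walk.length_cons] at h3
      omega
    have h4 : G.dist v w = 1 := SimpleGraph.dist_eq_one_iff_adj.mpr hadj
    simp only [SimpleGraph.Walk.length_cons] at hp
    omega

/-- A chosen parent towards `a`. -/
noncomputable def par (a v : V) : V :=
  if h : G.Reachable v a ∧ v ≠ a then (exists_par G a v h.1 h.2).choose else v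

lemma par_adj {a v : V} (h : G.Reachable v a) (hne : v ≠ a) : G.Adj v (par G a v) := by
  rw [par, dif_pos ⟨h, hne⟩]; exact (exists_par G a v h hne).choose_spec.1

lemma par_dist {a v : V} (h : G.Reachable v a) (hne : v ≠ a) :
    G.dist (par G a v) a + 1 = G.dist v a := by
  rw [par, dif_pos ⟨h, hne⟩]; exact (exists_par G a v h hne).choose_spec.2

lemma par_reach {a v : V} (h : G.Reachable v a) : G.Reachable (par G a v) a := by
  by_cases hne : v = a
  · rw [par, dif_neg (by simp [hne])]; exact h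
  · exact ((par_adj G h hne).reachable).symm.trans h

lemma iter_reach {a v : V} (h : G.Reachable v a) (k : ℕ) : G.Reachable ((par G a)^[k] v) a := by
  induction k with
  | zero => exact h
  | succ k ih => rw [Function.iterate_succ_apply']; exact par_reach G ih

lemma iter_dist {a v : V} (h : G.Reachable v a) (k : ℕ) (hk : k ≤ G.dist v a) :
    G.dist ((par G a)^[k] v) a + k = G.dist v a := by
  induction k with
  | zero => simp
  | succ k ih =>
    have ih' := ih (by omega)
    have hne : (par G a)^[k] v ≠ a := by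
      intro h0
      rw [h0] at ih'
      simp at ih'
      omega
    rw [Function.iterate_succ_apply']
    have := par_dist G (iter_reach G h k) hne
    omega

lemma iter_adj {a v : V} (h : G.Reachable v a) (k : ℕ) (hk : k < G.dist v a) :
    G.Adj ((par G a)^[k] v) ((par G a)^[k + 1] v) := by
  rw [Function.iterate_succ_apply']
  apply par_adj G (iter_reach G h k)
  intro h0
  have := iter_dist G h k hk.le
  rw [h0] at this
  simp at this
  omega

lemma iter_end {a v : V} (h : G.Reachable v a) : (par G a)^[G.dist v a] v = a := by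
  have := iter_dist G h _ le_rfl
  have h2 := iter_reach G h (G.dist v a)
  exact (SimpleGraph.Reachable.dist_eq_zero_iff h2).mp (by omega)

lemma dist_iter_le {a v : V} (h : G.Reachable v a) (k : ℕ) (hk : k ≤ G.dist v a) :
    G.dist v ((par G a)^[k] v) ≤ k ∧ G.Reachable v ((par G a)^[k] v) := by
  induction k with
  | zero => simp
  | succ k ih =>
    have ih' := ih (by omega)
    have hadj := iter_adj G h k (by omega)
    refine ⟨?_, ih'.2.trans hadj.reachable⟩
    obtain ⟨p, hp⟩ := ih'.2.exists_walk_length_eq_dist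
    have := SimpleGraph.dist_le (p.concat hadj)
    rw [SimpleGraph.Walk.length_concat] at this
    omega

end Tree


/-! ### Chains -/

section Chain

variable [Fintype V] (G : SimpleGraph V)

/-- The chain of the single edge `pq`. -/
noncomputable def dl (p q : V) : Sym2 V → ZMod 2 := fun e => if e = s(p, q) then 1 else 0

lemma bd_dl {p q : V} (hpq : p ≠ q) (v : V) :
    ∑ u, dl p q s(v, u) = (if v = p then 1 else 0) + (if v = q then 1 else 0) := by
  have h : ∀ u, dl p q s(v, u) =
      (if u = q then (if v = p then 1 else 0) else 0) +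
      (if u = p then (if v = q then 1 else 0) else 0) := by
    intro u
    unfold dl
    by_cases h1 : v = p
    · by_cases h2 : u = q
      · subst h1; subst h2
        simp [Ne.symm hpq]
      · subst h1
        have : ¬ (s(v, u) = s(v, q)) := by
          intro h
          rw [Sym2.eq_iff] at h
          rcases h with h | h
          · exact h2 h.2
          · exact h2 (h.2.trans h.1)
        simp [h2, hpq, this]
    · by_cases h3 : v = q
      · subst h3
        by_cases h4 : u = p
        · subst h4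
          simp [Sym2.eq_swap, hpq]
        · have : ¬ (s(v, u) = s(p, v)) := by
            intro h
            rw [Sym2.eq_iff] at h
            rcases h with h | h
            · exact h1 h.1
            · exact h4 h.2
          simp [h1, h4, this]
      · have : ¬ (s(v, u) = s(p, q)) := by
          intro h
          rw [Sym2.eq_iff] at h
          rcases h with h | h
          · exact h1 h.1
          · exact h3 h.1
        simp [h1, h3, this]
  simp_rw [h, Finset.sum_add_distrib, Finset.sum_ite_eq', Finset.mem_univ, if_true]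

/-- The chain of the tree path from `v` to the root `a`. -/
noncomputable def tp (a v : V) : Sym2 V → ZMod 2 :=
  fun e => ∑ k ∈ Finset.range (G.dist v a), dl ((par G a)^[k] v) ((par G a)^[k + 1] v) e

lemma bd_tp {a v : V} (h : G.Reachable v a) (w : V) :
    ∑ u, tp G a v s(w, u) = (if w = v then 1 else 0) + (if w = a then 1 else 0) := by
  unfold tp
  rw [Finset.sum_comm]
  have key : ∀ n ≤ G.dist v a, ∑ k ∈ Finset.range n, ∑ u, dl ((par G a)^[k] v) ((par G a)^[k + 1] v) s(w, u)
      = (if w = v then 1 else 0) + (if w = (par G a)^[n] v then 1 else 0) := by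
    intro n
    induction n with
    | zero =>
      intro _
      simp only [Finset.range_zero, Finset.sum_empty, Function.iterate_zero, id]
      exact (CharTwo.add_self_eq_zero _).symm
    | succ n ih =>
      intro hn
      rw [Finset.sum_range_succ, ih (by omega), bd_dl (iter_adj G h n (by omega)).ne]
      generalize (if w = v then (1 : ZMod 2) else 0) = A
      generalize (if w = (par G a)^[n] v then (1 : ZMod 2) else 0) = B
      generalize (if w = (par G a)^[n+1] v then (1 : ZMod 2) else 0) = C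
      have := CharTwo.add_self_eq_zero B
      linear_combination this
  rw [key _ le_rfl, iter_end G h]

omit [Fintype V] in
lemma tp_ne_zero {a v : V} (e : Sym2 V) (he : tp G a v e ≠ 0) :
    ∃ k < G.dist v a, e = s((par G a)^[k] v, (par G a)^[k + 1] v) := by
  unfold tp at he
  obtain ⟨k, hk, hne⟩ := Finset.exists_ne_zero_of_sum_ne_zero he
  refine ⟨k, Finset.mem_range.mp hk, ?_⟩
  unfold dl at hne
  by_contra h
  exact hne (if_neg h)

end Chain

/-! ### Regions -/

section Region

variable (G : SimpleGraph V)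

lemma dist_tri {u v w : V} (h1 : G.Reachable u v) (h2 : G.Reachable v w) :
    G.dist u w ≤ G.dist u v + G.dist v w := by
  obtain ⟨p, hp⟩ := h1.exists_walk_length_eq_dist
  obtain ⟨q, hq⟩ := h2.exists_walk_length_eq_dist
  have := SimpleGraph.dist_le (p.append q)
  rw [SimpleGraph.Walk.length_append] at this
  omega

/-- Vertices weakly closer to `x` than to `x0`. -/
def reg (x0 x : V) : Set V := {z | G.Reachable z x ∧ G.dist z x ≤ G.dist z x0}

/-- The frontier of `reg x0 x1` in the breadth first search tree of `x0`. -/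
def IsZ (x0 x1 z : V) : Prop :=
  G.Reachable z x0 ∧ z ≠ x0 ∧ z ∈ reg G x0 x1 ∧ par G x0 z ∉ reg G x0 x1

variable {G}

lemma reg_of_geod {x0 x z v : V} (hz : z ∈ reg G x0 x) (h0 : G.Reachable z x0)
    (hv : G.Reachable z v) (h : G.dist z v + G.dist v x ≤ G.dist z x) : v ∈ reg G x0 x := by
  refine ⟨hv.symm.trans hz.1, ?_⟩
  have h1 := dist_tri G hv (hv.symm.trans h0)
  have := hz.2
  omega

lemma not_reg_of_geod {x0 x z v : V} (hz : z ∉ reg G x0 x) (_h0 : G.Reachable z x0)
    (hv : G.Reachable z v) (h : G.dist z v + G.dist v x0 ≤ G.dist z x0) : v ∉ reg G x0 x := by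
  intro hv'
  apply hz
  have hr : G.Reachable z x := hv.trans hv'.1
  refine ⟨hr, ?_⟩
  have h1 := dist_tri G hv hv'.1
  have := hv'.2
  omega

variable {x0 x1 : V}

lemma IsZ.reach1 {z : V} (hz : IsZ G x0 x1 z) : G.Reachable z x1 := hz.2.2.1.1

lemma IsZ.pos {z : V} (hz : IsZ G x0 x1 z) : 0 < G.dist z x0 :=
  hz.1.pos_dist_of_ne hz.2.1

/-- `dist z x1` is `dist z x0` or `dist z x0 - 1`. -/
lemma IsZ.dist_le {z : V} (hz : IsZ G x0 x1 z) :
    G.dist z x1 ≤ G.dist z x0 ∧ G.dist z x0 ≤ G.dist z x1 + 1 := by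
  refine ⟨hz.2.2.1.2, ?_⟩
  have hadj := par_adj G hz.1 hz.2.1
  have hpd := par_dist G hz.1 hz.2.1
  have hpr : G.Reachable (par G x0 z) x1 := hadj.reachable.symm.trans hz.reach1
  have h1 : ¬ (G.dist (par G x0 z) x1 ≤ G.dist (par G x0 z) x0) := fun h => hz.2.2.2 ⟨hpr, h⟩
  have h2 := dist_tri G hadj.symm.reachable hz.reach1
  rw [SimpleGraph.dist_eq_one_iff_adj.mpr hadj.symm] at h2
  omega

lemma IsZ.iter0 {z : V} (hz : IsZ G x0 x1 z) (k : ℕ) (hk : k + 1 ≤ G.dist z x0) :
    (par G x0)^[k + 1] z ∉ reg G x0 x1 := by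
  have hp := par_reach G hz.1
  have hpd := par_dist G hz.1 hz.2.1
  rw [Function.iterate_succ_apply]
  have h1 := dist_iter_le G hp k (by omega)
  have h2 := iter_dist G hp k (by omega)
  exact not_reg_of_geod hz.2.2.2 hp h1.2 (by omega)

lemma IsZ.iter1 {z : V} (hz : IsZ G x0 x1 z) (k : ℕ) (hk : k ≤ G.dist z x1) :
    (par G x1)^[k] z ∈ reg G x0 x1 := by
  have h1 := dist_iter_le G hz.reach1 k hk
  have h2 := iter_dist G hz.reach1 k hk
  exact reg_of_geod hz.2.2.1 hz.1 h1.2 (by omega)

variable (G x0 x1) in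
/-- The meridian of `z`. -/
noncomputable def mer (z : V) : Sym2 V → ZMod 2 := fun e => tp G x0 z e + tp G x1 z e

lemma mer_cross {w a b : V} (hw : IsZ G x0 x1 w) (ha : a ∈ reg G x0 x1) (hb : b ∉ reg G x0 x1) :
    mer G x0 x1 w s(a, b) = if a = w ∧ b = par G x0 w then 1 else 0 := by
  have h1 : tp G x1 w s(a, b) = 0 := by
    by_contra h
    obtain ⟨k, hk, he⟩ := tp_ne_zero G _ h
    rw [Sym2.eq_iff] at he
    rcases he with he | he
    · exact hb (he.2 ▸ hw.iter1 (k + 1) hk)
    · exact hb (he.2 ▸ hw.iter1 k hk.le)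
  rw [mer, h1, add_zero]
  unfold tp
  rw [Finset.sum_eq_single 0]
  · unfold dl
    have : (s(a, b) = s((par G x0)^[0] w, (par G x0)^[0 + 1] w)) ↔ (a = w ∧ b = par G x0 w) := by
      simp only [Function.iterate_zero, id, zero_add, Function.iterate_one, Sym2.eq_iff]
      constructor
      · rintro (h | h)
        · exact h
        · exfalso; exact hb (h.2 ▸ hw.2.2.1)
      · intro h; exact Or.inl h
    simp only [this]
  · intro k hk hk0
    rw [Finset.mem_range] at hk
    obtain ⟨j, rfl⟩ := Nat.exists_eq_succ_of_ne_zero hk0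
    unfold dl
    apply if_neg
    intro h
    rw [Sym2.eq_iff] at h
    rcases h with h | h
    · exact hw.iter0 j (by omega) (h.1 ▸ ha)
    · exact hw.iter0 (j + 1) (by omega) (h.1 ▸ ha)
  · intro h
    exact absurd (Finset.mem_range.mpr hw.pos) h

lemma mer_adj {w a b : V} (hw : IsZ G x0 x1 w) (h : mer G x0 x1 w s(a, b) ≠ 0) :
    G.Adj a b ∧ G.Reachable x0 a := by
  have : tp G x0 w s(a, b) ≠ 0 ∨ tp G x1 w s(a, b) ≠ 0 := by
    by_contra hc
    push Not at hc
    exact h (by rw [mer, hc.1, hc.2, add_zero])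
  rcases this with h | h
  · obtain ⟨k, hk, he⟩ := tp_ne_zero G _ h
    have hadj := iter_adj G hw.1 k hk
    have hr := iter_reach G hw.1 k
    rw [Sym2.eq_iff] at he
    rcases he with he | he
    · rw [he.1, he.2]; exact ⟨hadj, hr.symm⟩
    · rw [he.1, he.2]; exact ⟨hadj.symm, (hadj.reachable.symm.trans hr).symm⟩
  · obtain ⟨k, hk, he⟩ := tp_ne_zero G _ h
    have hadj := iter_adj G hw.reach1 k hk
    have hr := ((iter_reach G hw.reach1 k).trans hw.reach1.symm).trans hw.1
    rw [Sym2.eq_iff] at he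
    rcases he with he | he
    · rw [he.1, he.2]; exact ⟨hadj, hr.symm⟩
    · rw [he.1, he.2]; exact ⟨hadj.symm, (hadj.reachable.symm.trans hr).symm⟩

/-- If the meridian of `w` touches `v` then `v` lies on a geodesic from `w` to `x0` or `x1`. -/
lemma mer_touch {w v u : V} (hw : IsZ G x0 x1 w) (h : mer G x0 x1 w s(v, u) ≠ 0) :
    G.Reachable w v ∧ (G.dist w v + G.dist v x0 ≤ G.dist w x0 ∨
      G.dist w v + G.dist v x1 ≤ G.dist w x1) := by
  have : tp G x0 w s(v, u) ≠ 0 ∨ tp G x1 w s(v, u) ≠ 0 := by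
    by_contra hc
    push Not at hc
    exact h (by rw [mer, hc.1, hc.2, add_zero])
  rcases this with h | h
  · obtain ⟨k, hk, he⟩ := tp_ne_zero G _ h
    have key : ∀ j ≤ G.dist w x0, G.Reachable w ((par G x0)^[j] w) ∧
        (G.dist w ((par G x0)^[j] w) + G.dist ((par G x0)^[j] w) x0 ≤ G.dist w x0) := by
      intro j hj
      have h1 := dist_iter_le G hw.1 j hj
      have h2 := iter_dist G hw.1 j hj
      exact ⟨h1.2, by omega⟩
    rw [Sym2.eq_iff] at he
    rcases he with he | he
    · rw [he.1]; exact ⟨(key k hk.le).1, Or.inl (key k hk.le).2⟩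
    · rw [he.1]; exact ⟨(key (k+1) hk).1, Or.inl (key (k+1) hk).2⟩
  · obtain ⟨k, hk, he⟩ := tp_ne_zero G _ h
    have key : ∀ j ≤ G.dist w x1, G.Reachable w ((par G x1)^[j] w) ∧
        (G.dist w ((par G x1)^[j] w) + G.dist ((par G x1)^[j] w) x1 ≤ G.dist w x1) := by
      intro j hj
      have h1 := dist_iter_le G hw.reach1 j hj
      have h2 := iter_dist G hw.reach1 j hj
      exact ⟨h1.2, by omega⟩
    rw [Sym2.eq_iff] at he
    rcases he with he | he
    · rw [he.1]; exact ⟨(key k hk.le).1, Or.inr (key k hk.le).2⟩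
    · rw [he.1]; exact ⟨(key (k+1) hk).1, Or.inr (key (k+1) hk).2⟩

/-- Key metric lemma: a geodesic from `z ∈ reg x` to `x` avoids the meridian of `w ∉ reg x`. -/
lemma avoid {z w x v u : V} (hz : IsZ G x0 x1 z) (hw : IsZ G x0 x1 w)
    (ht : G.dist z x0 + G.dist w x1 = G.dist w x0 + G.dist z x1)
    (hzx : z ∈ reg G x0 x) (hwx : w ∉ reg G x0 x)
    (hv : G.Reachable z v) (hg : G.dist z v + G.dist v x ≤ G.dist z x) :
    mer G x0 x1 w s(v, u) = 0 := by
  by_contra h
  obtain ⟨hwv, h⟩ := mer_touch hw h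
  have hvx : G.Reachable v x := hv.symm.trans hzx.1
  have hwx' : G.Reachable w x := hwv.trans hvx
  have hwd : ¬ G.dist w x ≤ G.dist w x0 := fun h => hwx ⟨hwx', h⟩
  have hv0 : G.Reachable v x0 := hv.symm.trans hz.1
  have hv1 : G.Reachable v x1 := hv.symm.trans hz.reach1
  have t1 := dist_tri G hv hv0
  have t2 := dist_tri G hwv hvx
  have t3 := dist_tri G hv hv1
  have t4 := hzx.2
  have t5 := hz.dist_le
  have t6 := hw.dist_le
  rcases h with h | h <;> omega

end Region

/-! ### Parity -/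

section Parity

variable [Fintype V] {G : SimpleGraph V} {x0 x1 : V}

omit [Fintype V] in
lemma sum_symm_zero (R : Finset V) (f : V → V → ZMod 2) (hs : ∀ a b, f a b = f b a)
    (hd : ∀ a, f a a = 0) : ∑ a ∈ R, ∑ b ∈ R, f a b = 0 := by
  rw [← Finset.sum_product']
  apply Finset.sum_involution (fun p _ => (p.2, p.1))
  · intro p _
    rw [hs p.2 p.1]
    exact CharTwo.add_self_eq_zero _
  · intro p _ hne heq
    apply hne
    have : p.2 = p.1 := congrArg Prod.fst heq
    rw [this]
    exact hd _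
  · intro p hp
    rw [Finset.mem_product] at hp ⊢
    exact ⟨hp.2, hp.1⟩
  · intro p _; rfl

/-- An even chain crossing the frontier only at edges of `Q` crosses it an even number of times. -/
lemma cut_even (c : Sym2 V → ZMod 2) (hc : ∀ v, ∑ u, c s(v, u) = 0)
    (hd : ∀ v, c s(v, v) = 0) (Q : Finset V) (hQ : ∀ z ∈ Q, IsZ G x0 x1 z)
    (hcr : ∀ a b, a ∈ reg G x0 x1 → b ∉ reg G x0 x1 → c s(a, b) ≠ 0 → a ∈ Q ∧ b = par G x0 a) :
    ∑ z ∈ Q, c s(z, par G x0 z) = 0 := by
  set R : Finset V := Finset.univ.filter (fun v => v ∈ reg G x0 x1) with hR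
  have memR : ∀ v, v ∈ R ↔ v ∈ reg G x0 x1 := by intro v; simp [hR]
  have h1 : ∑ v ∈ R, ∑ u, c s(v, u) = 0 := Finset.sum_eq_zero (fun v _ => hc v)
  have h2 : ∀ v, ∑ u, c s(v, u) = ∑ u ∈ R, c s(v, u) + ∑ u ∈ Rᶜ, c s(v, u) := by
    intro v
    exact (Finset.sum_add_sum_compl R _).symm
  simp_rw [h2, Finset.sum_add_distrib] at h1
  rw [sum_symm_zero R (fun a b => c s(a, b)) (fun a b => by rw [Sym2.eq_swap]) hd, zero_add] at h1
  rw [← h1]
  have hQR : Q ⊆ R := fun z hz => (memR z).mpr (hQ z hz).2.2.1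
  rw [← Finset.sum_subset hQR]
  · apply Finset.sum_congr rfl
    intro z hz
    symm
    apply Finset.sum_eq_single
    · intro b hb hne
      by_contra h
      exact hne (hcr z b (hQ z hz).2.2.1 (by rw [Finset.mem_compl, memR] at hb; exact hb) h).2
    · intro h
      exfalso; apply h
      rw [Finset.mem_compl, memR]; exact (hQ z hz).2.2.2
  · intro v hv hvQ
    apply Finset.sum_eq_zero
    intro b hb
    by_contra h
    exact hvQ (hcr v b ((memR v).mp hv) (by rw [Finset.mem_compl, memR] at hb; exact hb) h).1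

lemma mer_bd {z : V} (hz : IsZ G x0 x1 z) (v : V) :
    ∑ u, mer G x0 x1 z s(v, u) = (if v = x0 then 1 else 0) + (if v = x1 then 1 else 0) := by
  unfold mer
  rw [Finset.sum_add_distrib, bd_tp G hz.1, bd_tp G hz.reach1]
  generalize (if v = z then (1 : ZMod 2) else 0) = A
  generalize (if v = x0 then (1 : ZMod 2) else 0) = B
  generalize (if v = x1 then (1 : ZMod 2) else 0) = C
  have := CharTwo.add_self_eq_zero A
  linear_combination this

end Parity

/-! ### Status of a vertex with respect to a set of faces -/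

section Status

variable [Fintype V] {G : SimpleGraph V} {x0 x1 : V} {g : ℕ} (D : FaceData G x0 g)

/-- Boundary of a set of faces. -/
def FaceData.bd (J : D.F → ZMod 2) (v u : V) : ZMod 2 :=
  J (D.side s(v, u) true) + J (D.side s(v, u) false)

lemma zmod2_add_eq_zero {a b : ZMod 2} : a + b = 0 ↔ a = b := by
  revert a b; decide

/-- Along a walk avoiding the boundary of `J` the status is constant. -/
lemma status_const (J : D.F → ZMod 2) {a b : V} (p : G.Walk a b) (ha : G.Reachable x0 a)
    (hav : ∀ v ∈ p.support, ∀ u, G.Adj v u → D.bd J v u = 0)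
    {u u' : V} (hu : G.Adj a u) (hu' : G.Adj b u') :
    J (D.side s(a, u) true) = J (D.side s(b, u') true) := by
  induction p generalizing u with
  | nil =>
    apply D.link J _ ha _ _ _ hu hu'
    intro w hw
    exact zmod2_add_eq_zero.mp (hav _ (by simp) w hw)
  | @cons a c b h q ih =>
    have h1 : J (D.side s(a, u) true) = J (D.side s(a, c) true) := by
      apply D.link J _ ha _ _ _ hu h
      intro w hw
      exact zmod2_add_eq_zero.mp (hav _ (by simp) w hw)
    have h2 := ih (ha.trans h.reachable) (fun v hv => hav v (by simp [hv])) h.symm hu'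
    rw [h1, Sym2.eq_swap, h2]

end Status

/-! ### The order on the frontier -/

section Order

variable [Fintype V] {G : SimpleGraph V} {x0 : V} {g : ℕ} (D : FaceData G x0 g) (x1 : V)

/-- Frontier vertices of type `δ` whose meridian has homology class `η`. -/
def ZT (δ : ℕ) (η : Fin g → ZMod 2) : Set V :=
  {z | IsZ G x0 x1 z ∧ G.dist z x0 = G.dist z x1 + δ ∧ D.hcls (mer G x0 x1 z) = η}

variable {D x1}

lemma exists_J {δ : ℕ} {η : Fin g → ZMod 2} {z w : V} (hz : z ∈ ZT D x1 δ η)
    (hw : w ∈ ZT D x1 δ η) :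
    ∃ J : D.F → ZMod 2, ∀ v u, G.Adj v u → G.Reachable x0 v →
      D.bd J v u = mer G x0 x1 z s(v, u) + mer G x0 x1 w s(v, u) := by
  have h1 : ∀ v, ∑ u, (mer G x0 x1 z + mer G x0 x1 w) s(v, u) = 0 := by
    intro v
    simp only [Pi.add_apply]
    rw [Finset.sum_add_distrib, mer_bd hz.1, mer_bd hw.1]
    exact CharTwo.add_self_eq_zero _
  have h2 : ∀ v u, (mer G x0 x1 z + mer G x0 x1 w) s(v, u) ≠ 0 →
      G.Adj v u ∧ G.Reachable x0 v := by
    intro v u h
    simp only [Pi.add_apply] at h
    by_cases h1 : mer G x0 x1 z s(v, u) = 0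
    · rw [h1, zero_add] at h
      exact mer_adj hw.1 h
    · exact mer_adj hz.1 h1
  have h3 : D.hcls (mer G x0 x1 z + mer G x0 x1 w) = 0 := by
    rw [map_add, hz.2.2, hw.2.2]
    funext i
    exact CharTwo.add_self_eq_zero (η i)
  obtain ⟨J, hJ⟩ := D.hom _ h1 h2 h3
  exact ⟨J, fun v u h1 h2 => (hJ v u h1 h2).symm⟩

omit [Fintype V] in
lemma mer_self {z : V} (hz : IsZ G x0 x1 z) : mer G x0 x1 z s(z, par G x0 z) = 1 := by
  rw [mer_cross hz hz.2.2.1 hz.2.2.2]; simp

omit [Fintype V] in
lemma mer_other {z w : V} (hz : IsZ G x0 x1 z) (hw : IsZ G x0 x1 w) (h : z ≠ w) :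
    mer G x0 x1 w s(z, par G x0 z) = 0 := by
  rw [mer_cross hw hz.2.2.1 hz.2.2.2]; simp [h]

lemma zh1 (A B : ZMod 2) : (A + 1) + (B + 1) = A + B := by revert A B; decide
lemma zh2 (A : ZMod 2) (h : ¬ A = 1) : A + 1 = 1 := by revert A; decide
lemma zh3 (A B : ZMod 2) (h : A + B = 1) (h2 : ¬ A = 1) : B + 1 = 0 := by revert A B; decide

lemma exists_JJ {δ : ℕ} {η : Fin g → ZMod 2} {z0 : V} (hz0 : z0 ∈ ZT D x1 δ η) :
    ∃ J : V → D.F → ZMod 2, ∀ w ∈ ZT D x1 δ η, w ≠ z0 →
      (∀ v u, G.Adj v u → G.Reachable x0 v →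
        D.bd (J w) v u = mer G x0 x1 z0 s(v, u) + mer G x0 x1 w s(v, u)) ∧
      J w (D.side s(z0, par G x0 z0) true) = 1 ∧ J w (D.side s(z0, par G x0 z0) false) = 0 := by
  have key : ∀ w, ∃ J : D.F → ZMod 2, w ∈ ZT D x1 δ η → w ≠ z0 →
      (∀ v u, G.Adj v u → G.Reachable x0 v →
        D.bd J v u = mer G x0 x1 z0 s(v, u) + mer G x0 x1 w s(v, u)) ∧
      J (D.side s(z0, par G x0 z0) true) = 1 ∧ J (D.side s(z0, par G x0 z0) false) = 0 := by
    intro w
    by_cases hw : w ∈ ZT D x1 δ η ∧ w ≠ z0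
    · obtain ⟨J, hJ⟩ := exists_J hz0 hw.1
      have hadj := par_adj G hz0.1.1 hz0.1.2.1
      have h1 : D.bd J z0 (par G x0 z0) = 1 := by
        rw [hJ _ _ hadj hz0.1.1.symm, mer_self hz0.1, mer_other hz0.1 hw.1.1 (Ne.symm hw.2), add_zero]
      unfold FaceData.bd at h1
      by_cases h2 : J (D.side s(z0, par G x0 z0) true) = 1
      · refine ⟨J, fun _ _ => ⟨hJ, h2, ?_⟩⟩
        rw [h2] at h1
        generalize J (D.side s(z0, par G x0 z0) false) = B at h1 ⊢
        revert B; decide
      · refine ⟨fun f => J f + 1, fun _ _ => ⟨?_, ?_, ?_⟩⟩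
        · intro v u h3 h4
          rw [← hJ v u h3 h4]
          exact zh1 _ _
        · exact zh2 _ h2
        · exact zh3 _ _ h1 h2
    · exact ⟨0, fun h1 h2 => absurd ⟨h1, h2⟩ hw⟩
  choose J hJ using key
  exact ⟨J, fun w h1 h2 => hJ w h1 h2⟩

lemma prod_identity {δ : ℕ} {η : Fin g → ZMod 2} {z0 : V} (hz0 : z0 ∈ ZT D x1 δ η)
    (J : V → D.F → ZMod 2) (hJ : ∀ w ∈ ZT D x1 δ η, w ≠ z0 →
      (∀ v u, G.Adj v u → G.Reachable x0 v →
        D.bd (J w) v u = mer G x0 x1 z0 s(v, u) + mer G x0 x1 w s(v, u)) ∧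
      J w (D.side s(z0, par G x0 z0) true) = 1 ∧ J w (D.side s(z0, par G x0 z0) false) = 0)
    (S : Finset V) (hS : ∀ w ∈ S, w ∈ ZT D x1 δ η ∧ w ≠ z0) (hne : S.Nonempty) :
    1 + ∑ z ∈ S, ∏ w ∈ S.erase z, J w (D.side s(z, par G x0 z) true) = 0 := by
  set K : D.F → ZMod 2 := fun f => ∏ w ∈ S, J w f with hK
  set c : Sym2 V → ZMod 2 := fun e =>
    if (e ∈ G.edgeSet ∧ ∀ v ∈ e, G.Reachable x0 v) then K (D.side e true) + K (D.side e false)
    else 0 with hc
  have c1 : ∀ v u, G.Adj v u → G.Reachable x0 v → c s(v, u) = D.bd K v u := by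
    intro v u h1 h2
    simp only [hc, FaceData.bd]
    rw [if_pos]
    refine ⟨h1, ?_⟩
    intro a ha
    rw [Sym2.mem_iff] at ha
    rcases ha with rfl | rfl
    · exact h2
    · exact h2.trans h1.reachable
  have c2 : ∀ v u, ¬ (G.Adj v u ∧ G.Reachable x0 v) → c s(v, u) = 0 := by
    intro v u h
    simp only [hc]
    rw [if_neg]
    rintro ⟨h1, h2⟩
    exact h ⟨h1, h2 v (Sym2.mem_mk_left v u)⟩
  have hcz : ∀ v, ∑ u, c s(v, u) = 0 := by
    intro v
    by_cases hv : G.Reachable x0 v
    · rw [← D.even K v hv]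
      apply Finset.sum_congr rfl
      intro u _
      by_cases hu : G.Adj v u
      · rw [c1 v u hu hv, if_pos hu]; rfl
      · rw [c2 v u (fun h => hu h.1), if_neg hu]
    · exact Finset.sum_eq_zero (fun u _ => c2 v u (fun h => hv h.2))
  have hcd : ∀ v, c s(v, v) = 0 := fun v => c2 v v (fun h => G.loopless.irrefl v h.1)
  set Q : Finset V := insert z0 S with hQ
  have hz0S : z0 ∉ S := fun h => (hS z0 h).2 rfl
  have hcut := cut_even (G := G) (x0 := x0) (x1 := x1) c hcz hcd Q ?_ ?_
  rotate_left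
  · intro z hz
    rw [hQ, Finset.mem_insert] at hz
    rcases hz with rfl | hz
    · exact hz0.1
    · exact (hS z hz).1.1
  · intro a b ha hb hne'
    have hab : G.Adj a b ∧ G.Reachable x0 a := by
      by_contra h
      exact hne' (c2 a b h)
    rw [c1 a b hab.1 hab.2] at hne'
    by_contra hcon
    apply hne'
    have hm : ∀ q ∈ Q, mer G x0 x1 q s(a, b) = 0 := by
      intro q hq
      have hqz : IsZ G x0 x1 q := by
        rw [hQ, Finset.mem_insert] at hq
        rcases hq with rfl | hq
        · exact hz0.1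
        · exact (hS q hq).1.1
      rw [mer_cross hqz ha hb, if_neg]
      rintro ⟨rfl, h2⟩
      exact hcon ⟨hq, h2⟩
    unfold FaceData.bd
    rw [zmod2_add_eq_zero, hK]
    apply Finset.prod_congr rfl
    intro w hw
    have h3 := (hJ w (hS w hw).1 (hS w hw).2).1 a b hab.1 hab.2
    rw [hm z0 (by simp [hQ]), hm w (by simp [hQ, hw]), add_zero] at h3
    exact zmod2_add_eq_zero.mp h3
  rw [hQ, Finset.sum_insert hz0S] at hcut
  have e0 : c s(z0, par G x0 z0) = 1 := by
    rw [c1 _ _ (par_adj G hz0.1.1 hz0.1.2.1) hz0.1.1.symm]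
    simp only [FaceData.bd, hK]
    rw [Finset.prod_eq_one (fun w hw => (hJ w (hS w hw).1 (hS w hw).2).2.1)]
    obtain ⟨w, hw⟩ := hne
    rw [Finset.prod_eq_zero hw (hJ w (hS w hw).1 (hS w hw).2).2.2, add_zero]
  have e1 : ∀ z ∈ S, c s(z, par G x0 z) =
      ∏ w ∈ S.erase z, J w (D.side s(z, par G x0 z) true) := by
    intro z hz
    have hzz := (hS z hz).1.1
    have hadj := par_adj G hzz.1 hzz.2.1
    rw [c1 _ _ hadj hzz.1.symm]
    simp only [FaceData.bd, hK]
    rw [← Finset.mul_prod_erase S _ hz, ← Finset.mul_prod_erase S _ hz]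
    have h4 : ∏ w ∈ S.erase z, J w (D.side s(z, par G x0 z) false) =
        ∏ w ∈ S.erase z, J w (D.side s(z, par G x0 z) true) := by
      apply Finset.prod_congr rfl
      intro w hw
      rw [Finset.mem_erase] at hw
      have h3 := (hJ w (hS w hw.2).1 (hS w hw.2).2).1 _ _ hadj hzz.1.symm
      rw [mer_other hzz hz0.1 (hS z hz).2, mer_other hzz (hS w hw.2).1.1 (Ne.symm hw.1),
        add_zero] at h3
      exact (zmod2_add_eq_zero.mp h3).symm
    rw [h4, ← add_mul]
    have h5 := (hJ z (hS z hz).1 (hS z hz).2).1 _ _ hadj hzz.1.symm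
    rw [mer_other hzz hz0.1 (hS z hz).2, mer_self hzz, zero_add] at h5
    unfold FaceData.bd at h5
    rw [h5, one_mul]
  rw [e0, Finset.sum_congr rfl e1] at hcut
  exact hcut


omit [Fintype V] in
lemma exists_walk_geod {z z' x : V} (hz : z ∈ reg G x0 x) (hz' : z' ∈ reg G x0 x) :
    ∃ p : G.Walk z z', ∀ v ∈ p.support,
      (G.Reachable z v ∧ G.dist z v + G.dist v x ≤ G.dist z x) ∨
      (G.Reachable z' v ∧ G.dist z' v + G.dist v x ≤ G.dist z' x) := by
  obtain ⟨p, hp⟩ := hz.1.exists_walk_length_eq_dist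
  obtain ⟨q, hq⟩ := hz'.1.exists_walk_length_eq_dist
  have key : ∀ (a : V) (r : G.Walk a x) (_ : r.length = G.dist a x) (v : V), v ∈ r.support →
      (G.Reachable a v ∧ G.dist a v + G.dist v x ≤ G.dist a x) := by
    intro a r hr v hv
    have h1 := congrArg SimpleGraph.Walk.length (r.take_spec hv)
    rw [SimpleGraph.Walk.length_append] at h1
    have h2 := SimpleGraph.dist_le (r.takeUntil v hv)
    have h3 := SimpleGraph.dist_le (r.dropUntil v hv)
    exact ⟨⟨r.takeUntil v hv⟩, by omega⟩
  refine ⟨p.append q.reverse, ?_⟩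
  intro v hv
  rw [SimpleGraph.Walk.mem_support_append_iff] at hv
  rcases hv with hv | hv
  · exact Or.inl (key z p hp v hv)
  · rw [SimpleGraph.Walk.support_reverse, List.mem_reverse] at hv
    exact Or.inr (key z' q hq v hv)

/-- The non-crossing property. -/
lemma no_cross {δ : ℕ} {η : Fin g → ZMod 2} {a b c d x : V} (ha : a ∈ ZT D x1 δ η)
    (hb : b ∈ ZT D x1 δ η) (hc : c ∈ ZT D x1 δ η) (hd : d ∈ ZT D x1 δ η)
    (hax : a ∈ reg G x0 x) (hbx : b ∉ reg G x0 x) (hcx : c ∈ reg G x0 x) (hdx : d ∉ reg G x0 x)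
    (J : D.F → ZMod 2) (hJ : ∀ v u, G.Adj v u → G.Reachable x0 v →
      D.bd J v u = mer G x0 x1 b s(v, u) + mer G x0 x1 d s(v, u)) :
    J (D.side s(a, par G x0 a) true) = J (D.side s(c, par G x0 c) true) := by
  obtain ⟨p, hp⟩ := exists_walk_geod hax hcx
  apply status_const D J p ha.1.1.symm ?_ (par_adj G ha.1.1 ha.1.2.1) (par_adj G hc.1.1 hc.1.2.1)
  intro v hv u hu
  have tab : ∀ {y w : V}, y ∈ ZT D x1 δ η → w ∈ ZT D x1 δ η →
      G.dist y x0 + G.dist w x1 = G.dist w x0 + G.dist y x1 := by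
    intro y w hy hw
    have h1 := hy.2.1
    have h2 := hw.2.1
    omega
  have hr : G.Reachable x0 v := by
    rcases hp v hv with h | h
    · exact ha.1.1.symm.trans h.1
    · exact hc.1.1.symm.trans h.1
  rw [hJ v u hu hr]
  rcases hp v hv with h | h
  · rw [avoid ha.1 hb.1 (tab ha hb) hax hbx h.1 h.2, avoid ha.1 hd.1 (tab ha hd) hax hdx h.1 h.2,
      add_zero]
  · rw [avoid hc.1 hb.1 (tab hc hb) hcx hbx h.1 h.2, avoid hc.1 hd.1 (tab hc hd) hcx hdx h.1 h.2,
      add_zero]

/-- A strict total order on the frontier class for which every region `reg x` changes at most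
twice along the cyclic order. -/
theorem exists_order (D : FaceData G x0 g) (x1 : V) (δ : ℕ) (η : Fin g → ZMod 2) :
    ∃ r : V → V → Prop,
      (∀ a ∈ ZT D x1 δ η, ¬ r a a) ∧
      (∀ a ∈ ZT D x1 δ η, ∀ b ∈ ZT D x1 δ η, ∀ c ∈ ZT D x1 δ η, r a b → r b c → r a c) ∧
      (∀ a ∈ ZT D x1 δ η, ∀ b ∈ ZT D x1 δ η, a ≠ b → r a b ∨ r b a) ∧
      (∀ a ∈ ZT D x1 δ η, ∀ b ∈ ZT D x1 δ η, ∀ c ∈ ZT D x1 δ η, ∀ d ∈ ZT D x1 δ η,
        r a b → r b c → r c d → ∀ x,
        ¬ (a ∈ reg G x0 x ∧ b ∉ reg G x0 x ∧ c ∈ reg G x0 x ∧ d ∉ reg G x0 x) ∧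
        ¬ (a ∉ reg G x0 x ∧ b ∈ reg G x0 x ∧ c ∉ reg G x0 x ∧ d ∈ reg G x0 x)) := by
  by_cases hne : (ZT D x1 δ η).Nonempty
  swap
  · rw [Set.not_nonempty_iff_eq_empty] at hne
    refine ⟨fun _ _ => False, ?_⟩
    rw [hne]
    simp
  obtain ⟨z0, hz0⟩ := hne
  obtain ⟨J, hJ⟩ := exists_JJ hz0
  set st : V → V → ZMod 2 := fun z w => J w (D.side s(z, par G x0 z) true) with hst
  have hA : ∀ z ∈ ZT D x1 δ η, ∀ w ∈ ZT D x1 δ η, z ≠ z0 → w ≠ z0 → z ≠ w →
      1 + (st z w + st w z) = 0 := by
    intro z hz w hw hz0' hw0 hzw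
    have := prod_identity hz0 J hJ {z, w} (by
      intro y hy
      rw [Finset.mem_insert, Finset.mem_singleton] at hy
      rcases hy with rfl | rfl
      · exact ⟨hz, hz0'⟩
      · exact ⟨hw, hw0⟩) ⟨z, by simp⟩
    rw [Finset.sum_pair hzw] at this
    have e1 : ({z, w} : Finset V).erase z = {w} := by
      ext y; simp only [Finset.mem_erase, Finset.mem_insert, Finset.mem_singleton]
      constructor
      · rintro ⟨h1, h2 | h2⟩
        · exact absurd h2 h1
        · exact h2
      · rintro rfl; exact ⟨Ne.symm hzw, Or.inr rfl⟩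
    have e2 : ({z, w} : Finset V).erase w = {z} := by
      ext y; simp only [Finset.mem_erase, Finset.mem_insert, Finset.mem_singleton]
      constructor
      · rintro ⟨h1, h2 | h2⟩
        · exact h2
        · exact absurd h2 h1
      · rintro rfl; exact ⟨hzw, Or.inl rfl⟩
    rw [e1, e2, Finset.prod_singleton, Finset.prod_singleton] at this
    exact this
  have hB : ∀ z ∈ ZT D x1 δ η, ∀ w ∈ ZT D x1 δ η, ∀ u ∈ ZT D x1 δ η, z ≠ z0 → w ≠ z0 → u ≠ z0 →
      z ≠ w → z ≠ u → w ≠ u →
      1 + (st z w * st z u + (st w z * st w u + st u z * st u w)) = 0 := by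
    intro z hz w hw u hu hz0' hw0 hu0 hzw hzu hwu
    have := prod_identity hz0 J hJ {z, w, u} (by
      intro y hy
      rw [Finset.mem_insert, Finset.mem_insert, Finset.mem_singleton] at hy
      rcases hy with rfl | rfl | rfl
      · exact ⟨hz, hz0'⟩
      · exact ⟨hw, hw0⟩
      · exact ⟨hu, hu0⟩) ⟨z, by simp⟩
    rw [Finset.sum_insert (by simp [hzw, hzu]), Finset.sum_pair hwu] at this
    have e1 : ({z, w, u} : Finset V).erase z = {w, u} := by
      ext y; simp only [Finset.mem_erase, Finset.mem_insert, Finset.mem_singleton]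
      constructor
      · rintro ⟨h1, h2 | h2⟩
        · exact absurd h2 h1
        · exact h2
      · rintro (rfl | rfl)
        · exact ⟨Ne.symm hzw, Or.inr (Or.inl rfl)⟩
        · exact ⟨Ne.symm hzu, Or.inr (Or.inr rfl)⟩
    have e2 : ({z, w, u} : Finset V).erase w = {z, u} := by
      ext y; simp only [Finset.mem_erase, Finset.mem_insert, Finset.mem_singleton]
      constructor
      · rintro ⟨h1, h2 | h2 | h2⟩
        · exact Or.inl h2
        · exact absurd h2 h1
        · exact Or.inr h2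
      · rintro (rfl | rfl)
        · exact ⟨hzw, Or.inl rfl⟩
        · exact ⟨Ne.symm hwu, Or.inr (Or.inr rfl)⟩
    have e3 : ({z, w, u} : Finset V).erase u = {z, w} := by
      ext y; simp only [Finset.mem_erase, Finset.mem_insert, Finset.mem_singleton]
      constructor
      · rintro ⟨h1, h2 | h2 | h2⟩
        · exact Or.inl h2
        · exact Or.inr h2
        · exact absurd h2 h1
      · rintro (rfl | rfl)
        · exact ⟨hzu, Or.inl rfl⟩
        · exact ⟨hwu, Or.inr (Or.inl rfl)⟩
    rw [e1, e2, e3, Finset.prod_pair hwu, Finset.prod_pair hzu, Finset.prod_pair hzw] at this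
    exact this
  have zz1 : ∀ A B : ZMod 2, 1 + (A + B) = 0 → (A = 1 ∧ B = 0) ∨ (A = 0 ∧ B = 1) := by decide
  set r : V → V → Prop := fun z w => z ≠ w ∧ (z = z0 ∨ (w ≠ z0 ∧ z ≠ z0 ∧ st z w = 1)) with hr
  have rne : ∀ {z w}, r z w → w ≠ z0 := by
    intro z w h
    rcases h.2 with h' | h'
    · rw [← h']; exact Ne.symm h.1
    · exact h'.1
  -- values of `st` from the order
  have rst : ∀ {z w}, z ∈ ZT D x1 δ η → w ∈ ZT D x1 δ η → z ≠ z0 → r z w →
      st z w = 1 ∧ st w z = 0 := by
    intro z w hz hw hz0' h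
    have h1 : st z w = 1 := by
      rcases h.2 with h' | h'
      · exact absurd h' hz0'
      · exact h'.2.2
    rcases zz1 _ _ (hA z hz w hw hz0' (rne h) h.1) with h2 | h2
    · exact h2
    · rw [h1] at h2; exact absurd h2.1 (by decide)
  have rtrans : ∀ a ∈ ZT D x1 δ η, ∀ b ∈ ZT D x1 δ η, ∀ c ∈ ZT D x1 δ η,
      r a b → r b c → r a c := by
    intro a ha b hb c hc hab hbc
    have hb0 := rne hab
    have hc0 := rne hbc
    have hbc' := rst hb hc hb0 hbc
    by_cases ha0 : a = z0
    · exact ⟨by rw [ha0]; exact Ne.symm hc0, Or.inl ha0⟩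
    · have hab' := rst ha hb ha0 hab
      have hac : a ≠ c := by
        rintro rfl
        rw [hab'.1] at hbc'
        exact absurd hbc'.2 (by decide)
      refine ⟨hac, Or.inr ⟨hc0, ha0, ?_⟩⟩
      have h3 := hB a ha b hb c hc ha0 hb0 hc0 hab.1 hac hbc.1
      rw [hab'.1, hab'.2, hbc'.1, hbc'.2] at h3
      revert h3
      generalize st a c = X
      generalize st c a = Y
      revert X Y; decide
  refine ⟨r, fun a _ h => h.1 rfl, rtrans, ?_, ?_⟩
  · intro a ha b hb hab
    by_cases ha0 : a = z0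
    · exact Or.inl ⟨hab, Or.inl ha0⟩
    · by_cases hb0 : b = z0
      · exact Or.inr ⟨Ne.symm hab, Or.inl hb0⟩
      · rcases zz1 _ _ (hA a ha b hb ha0 hb0 hab) with h | h
        · exact Or.inl ⟨hab, Or.inr ⟨hb0, ha0, h.1⟩⟩
        · exact Or.inr ⟨Ne.symm hab, Or.inr ⟨ha0, hb0, h.2⟩⟩
  · intro a ha b hb c hc d hd hab hbc hcd x
    have hb0 := rne hab
    have hc0 := rne hbc
    have hd0 := rne hcd
    have hac := rtrans a ha b hb c hc hab hbc
    have hbd := rtrans b hb c hc d hd hbc hcd
    have had := rtrans a ha b hb d hd hab hbd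
    have sbc := rst hb hc hb0 hbc
    have scd := rst hc hd hc0 hcd
    have sbd := rst hb hd hb0 hbd
    constructor
    · rintro ⟨h1, h2, h3, h4⟩
      have key := no_cross ha hb hc hd h1 h2 h3 h4 (fun f => J b f + J d f) (by
        intro v u hvu hv
        have e1 := (hJ b hb hb0).1 v u hvu hv
        have e2 := (hJ d hd hd0).1 v u hvu hv
        unfold FaceData.bd at e1 e2 ⊢
        have e3 := CharTwo.add_self_eq_zero (mer G x0 x1 z0 s(v, u))
        linear_combination e1 + e2 + e3)
      have k1 : J b (D.side s(c, par G x0 c) true) = 0 := sbc.2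
      have k2 : J d (D.side s(c, par G x0 c) true) = 1 := scd.1
      rw [k1, k2] at key
      by_cases ha0 : a = z0
      · rw [ha0, (hJ b hb hb0).2.1, (hJ d hd hd0).2.1] at key
        exact absurd key (by decide)
      · have sab := rst ha hb ha0 hab
        have sad := rst ha hd ha0 had
        have k3 : J b (D.side s(a, par G x0 a) true) = 1 := sab.1
        have k4 : J d (D.side s(a, par G x0 a) true) = 1 := sad.1
        rw [k3, k4] at key
        exact absurd key (by decide)
    · rintro ⟨h1, h2, h3, h4⟩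
      by_cases ha0 : a = z0
      · have key := no_cross hd hc hb ha h4 h3 h2 h1 (J c) (by
          intro v u hvu hv
          have e1 := (hJ c hc hc0).1 v u hvu hv
          rw [e1, ha0, add_comm])
        have k1 : J c (D.side s(b, par G x0 b) true) = 1 := sbc.1
        have k2 : J c (D.side s(d, par G x0 d) true) = 0 := scd.2
        rw [k1, k2] at key
        exact absurd key (by decide)
      · have key := no_cross hd hc hb ha h4 h3 h2 h1 (fun f => J c f + J a f) (by
          intro v u hvu hv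
          have e1 := (hJ c hc hc0).1 v u hvu hv
          have e2 := (hJ a ha ha0).1 v u hvu hv
          unfold FaceData.bd at e1 e2 ⊢
          have e3 := CharTwo.add_self_eq_zero (mer G x0 x1 z0 s(v, u))
          linear_combination e1 + e2 + e3)
        have sab := rst ha hb ha0 hab
        have sad := rst ha hd ha0 had
        have k1 : J c (D.side s(b, par G x0 b) true) = 1 := sbc.1
        have k2 : J c (D.side s(d, par G x0 d) true) = 0 := scd.2
        have k3 : J a (D.side s(b, par G x0 b) true) = 0 := sab.2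
        have k4 : J a (D.side s(d, par G x0 d) true) = 0 := sad.2
        rw [k1, k2, k3, k4] at key
        exact absurd key (by decide)

end Order

end Pool.Agent.H81.Balls
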