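import Mathlib

/-!
# Hypergraphs of balls and proper sample compression schemes (definitions)
-/

namespace Pool.Agent.H81.Balls

variable {V : Type*}

/-- The ball `B_G(c, r)` (`r` an integer): all vertices at distance at most `r` from `c`.
Vertices in another component are at infinite distance from `c`. -/
def ball (G : SimpleGraph V) (c : V) (r : ℤ) : Set V :=
  {v | G.Reachable c v ∧ (G.dist c v : ℤ) ≤ r}

/-- The hyperedges of the hypergraph of balls of `G`. -/
def balls (G : SimpleGraph V) : Set (Set V) := {e | ∃ (c : V) (r : ℤ), e = ball G c r}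

/-- `X = (X⁺, X⁻)` is a sample of the hypergraph with hyperedges `E`: some hyperedge contains `X⁺`
and misses `X⁻`. -/
def IsSample (E : Set (Set V)) (X : Finset V × Finset V) : Prop :=
  ∃ e ∈ E, (X.1 : Set V) ⊆ e ∧ Disjoint (X.2 : Set V) e

/-- `S` realizes `X = (X⁺, X⁻)`. -/
def Realizes (S : Set V) (X : Finset V × Finset V) : Prop :=
  (X.1 : Set V) ⊆ S ∧ Disjoint (X.2 : Set V) S

/-- The hypergraph with hyperedges `E` has a proper sample compression scheme of size at most
`k`. -/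
def HasProperScheme (E : Set (Set V)) (k : ℕ) : Prop :=
  ∃ (κ : {X // IsSample E X} → {X // IsSample E X} × List Bool)
    (ρ : {X // IsSample E X} × List Bool → Set V) (k₁ k₂ : ℕ),
    k₁ + k₂ ≤ k ∧
    (∀ X, (κ X).1.1.1 ⊆ X.1.1 ∧ (κ X).1.1.2 ⊆ X.1.2) ∧
    (∀ X, Realizes (ρ (κ X)) X.1) ∧
    (∀ X, (((κ X).1.1.1 : Set V) ∪ ((κ X).1.1.2 : Set V)).ncard ≤ k₁) ∧
    (∀ X, (κ X).2.length ≤ k₂) ∧
    (∀ Y, ρ Y ∈ E)

end Pool.Agent.H81.Balls
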