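import Pool.Agent.H81.Balls.Core

set_option autoImplicit false

open Classical Finset

namespace Pool.Agent.H81.Balls

variable {V : Type*}

/-- A family of decoders gives a proper scheme. -/
theorem scheme_of_decoders (E : Set (Set V)) (k₁ k₂ : ℕ) (I : Type) [Fintype I]
    (hI : Fintype.card I ≤ 2 ^ k₂) (dec : I → Finset V × Finset V → Set V)
    (hdec : ∀ i Y, dec i Y ∈ E)
    (h : ∀ X, IsSample E X → ∃ (Y : Finset V × Finset V) (i : I), Y.1 ⊆ X.1 ∧ Y.2 ⊆ X.2 ∧
      ((Y.1 : Set V) ∪ (Y.2 : Set V)).ncard ≤ k₁ ∧ Realizes (dec i Y) X) :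
    HasProperScheme E (k₁ + k₂) := by
  by_cases hemp : IsEmpty {X // IsSample E X}
  · exact ⟨fun X => (hemp.false X).elim, fun Y => (hemp.false Y.1).elim, k₁, k₂, le_rfl,
      fun X => (hemp.false X).elim, fun X => (hemp.false X).elim, fun X => (hemp.false X).elim,
      fun X => (hemp.false X).elim, fun Y => (hemp.false Y.1).elim⟩
  rw [not_isEmpty_iff] at hemp
  obtain ⟨X0⟩ := hemp
  obtain ⟨_, i0, _⟩ := h X0.1 X0.2
  have hcard : Fintype.card I ≤ Fintype.card (Fin k₂ → Bool) := by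
    simpa using hI
  obtain ⟨emb⟩ := Function.Embedding.nonempty_of_card_le hcard
  choose Y i hY using fun X : {X // IsSample E X} => h X.1 X.2
  have hYs : ∀ X : {X // IsSample E X}, IsSample E (Y X) := by
    intro X
    obtain ⟨e, he, h1, h2⟩ := X.2
    refine ⟨e, he, ?_, ?_⟩
    · exact (Finset.coe_subset.mpr (hY X).1).trans h1
    · exact Set.disjoint_of_subset_left (Finset.coe_subset.mpr (hY X).2.1) h2
  refine ⟨fun X => (⟨Y X, hYs X⟩, List.ofFn (emb (i X))),
    fun P => dec (if hP : ∃ j, List.ofFn (emb j) = P.2 then hP.choose else i0) P.1.1,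
    k₁, k₂, le_rfl, ?_, ?_, ?_, ?_, ?_⟩
  · intro X; exact ⟨(hY X).1, (hY X).2.1⟩
  · intro X
    have hP : ∃ j, List.ofFn (emb j) = List.ofFn (emb (i X)) := ⟨_, rfl⟩
    have h1 : hP.choose = i X := by
      apply emb.injective
      exact List.ofFn_injective hP.choose_spec
    show Realizes (dec (if hP : ∃ j, List.ofFn (emb j) = List.ofFn (emb (i X)) then hP.choose
      else i0) (Y X)) X.1
    rw [dif_pos hP, h1]
    exact (hY X).2.2.2
  · intro X; exact (hY X).2.2.1
  · intro X; simp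
  · intro P; exact hdec _ _

variable [Fintype V] {G : SimpleGraph V} {g : ℕ}

/-- The order on the frontier, in global form. -/
theorem exists_order' {x0 : V} (D : FaceData G x0 g) (x1 : V) (δ : ℕ) (η : Fin g → ZMod 2) :
    ∃ r : V → V → Prop,
      (∀ a b, r a b → a ∈ ZT D x1 δ η ∧ b ∈ ZT D x1 δ η) ∧ (∀ a, ¬ r a a) ∧
      (∀ a b c, r a b → r b c → r a c) ∧
      (∀ a ∈ ZT D x1 δ η, ∀ b ∈ ZT D x1 δ η, a ≠ b → r a b ∨ r b a) ∧
      (∀ a b c d, r a b → r b c → r c d → ∀ x,
        ¬ (a ∈ reg G x0 x ∧ b ∉ reg G x0 x ∧ c ∈ reg G x0 x ∧ d ∉ reg G x0 x) ∧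
        ¬ (a ∉ reg G x0 x ∧ b ∈ reg G x0 x ∧ c ∉ reg G x0 x ∧ d ∈ reg G x0 x)) := by
  obtain ⟨r, h1, h2, h3, h4⟩ := exists_order D x1 δ η
  refine ⟨fun a b => a ∈ ZT D x1 δ η ∧ b ∈ ZT D x1 δ η ∧ r a b, fun a b h => ⟨h.1, h.2.1⟩,
    fun a h => h1 a h.1 h.2.2, fun a b c hab hbc => ⟨hab.1, hbc.2.1,
      h2 a hab.1 b hab.2.1 c hbc.2.1 hab.2.2 hbc.2.2⟩, ?_, ?_⟩
  · intro a ha b hb hab
    rcases h3 a ha b hb hab with h | h
    · exact Or.inl ⟨ha, hb, h⟩
    · exact Or.inr ⟨hb, ha, h⟩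
  · intro a b c d hab hbc hcd
    exact h4 a hab.1 b hab.2.1 c hbc.2.1 d hcd.2.1 hab.2.2 hbc.2.2 hcd.2.2

/-- The chosen order. -/
noncomputable def ord (D : ∀ x0, FaceData G x0 g) (x0 x1 : V) (δ : ℕ) (η : Fin g → ZMod 2) :
    V → V → Prop := (exists_order' (D x0) x1 δ η).choose

/-- First element of the frontier class. -/
def IsFirst (D : ∀ x0, FaceData G x0 g) (x0 x1 : V) (δ : ℕ) (η : Fin g → ZMod 2) (z : V) : Prop :=
  z ∈ ZT (D x0) x1 δ η ∧ ∀ w, ¬ ord D x0 x1 δ η w z

/-- `z` lies in (`s = true`) resp. outside (`s = false`) the region of `u`, its predecessor not. -/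
def IsChange (D : ∀ x0, FaceData G x0 g) (x0 x1 : V) (δ : ℕ) (η : Fin g → ZMod 2) (u : V)
    (s : Bool) (z : V) : Prop :=
  ∃ p, ord D x0 x1 δ η p z ∧ (∀ q, ord D x0 x1 δ η q z → ¬ ord D x0 x1 δ η p q) ∧
    (z ∈ reg G x0 u ↔ s = true) ∧ (p ∈ reg G x0 u ↔ s = false)

lemma isFirst_unique (D : ∀ x0, FaceData G x0 g) {x0 x1 : V} {δ : ℕ} {η : Fin g → ZMod 2}
    {z z' : V} (h : IsFirst D x0 x1 δ η z) (h' : IsFirst D x0 x1 δ η z') : z = z' := by
  by_contra hne
  have hs := (exists_order' (D x0) x1 δ η).choose_spec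
  rcases hs.2.2.2.1 z h.1 z' h'.1 hne with h1 | h1
  · exact h'.2 _ h1
  · exact h.2 _ h1

lemma isChange_unique (D : ∀ x0, FaceData G x0 g) {x0 x1 : V} {δ : ℕ} {η : Fin g → ZMod 2}
    {u : V} {s : Bool} {z z' : V} (h : IsChange D x0 x1 δ η u s z)
    (h' : IsChange D x0 x1 δ η u s z') : z = z' := by
  have hs := (exists_order' (D x0) x1 δ η).choose_spec
  have key : ∀ {a b : V}, IsChange D x0 x1 δ η u s a → IsChange D x0 x1 δ η u s b →
      ord D x0 x1 δ η a b → False := by
    rintro a b ⟨p, h1, h2, h3, h4⟩ ⟨q, h5, h6, h7, h8⟩ hab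
    have haq : a ≠ q := by
      rintro rfl
      cases s
      · simp at h3 h8; exact h3 h8
      · simp at h3 h8; exact h8 h3
    have hq := (hs.1 q b h5).1
    have ha := (hs.1 a b hab).1
    have h9 : ord D x0 x1 δ η a q := by
      rcases hs.2.2.2.1 a ha q hq haq with h | h
      · exact h
      · exact absurd h (h6 a hab)
    have h10 := hs.2.2.2.2 p a q b h1 h9 h5 u
    cases s
    · simp at h3 h4 h7 h8
      exact h10.1 ⟨h4, h3, h8, h7⟩
    · simp at h3 h4 h7 h8
      exact h10.2 ⟨h4, h3, h8, h7⟩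
  by_contra hne
  obtain ⟨p, h1, _⟩ := id h
  obtain ⟨q, h2, _⟩ := id h'
  have hz := (hs.1 p z h1).2
  have hz' := (hs.1 q z' h2).2
  rcases hs.2.2.2.1 z hz z' hz' hne with h3 | h3
  · exact key h h' h3
  · exact key h' h h3

/-- Tags. -/
inductive Tag where
  | emp : Tag
  | single : Tag
  | A : Bool → Bool → Tag
  | N : Bool → Bool → Tag
  | P : Fin 3 → Fin 3 → Bool → Tag
  deriving Fintype

lemma card_tag : Fintype.card Tag ≤ 32 := by decide

/-- `Bool` to `ℕ`. -/
def bn (b : Bool) : ℕ := if b then 1 else 0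

open Tag in
/-- The centre found by the decoder, together with the reference vertex. -/
noncomputable def decv [Nonempty V] (D : ∀ x0, FaceData G x0 g) (t : Tag × (Fin g → ZMod 2))
    (Y : Finset V × Finset V) : V × ℤ :=
  let d : V := Classical.arbitrary V
  match t.1 with
  | emp => (d, -1)
  | single => (Y.1.toList.getD 0 d, 0)
  | A i δ =>
    let x0 := Y.1.toList.getD (bn i) d
    let x1 := Y.1.toList.getD (1 - bn i) d
    let z := Classical.epsilon (IsFirst D x0 x1 (bn δ) t.2)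
    (z, G.dist z x0)
  | N i δ =>
    let x0 := Y.1.toList.getD (bn i) d
    let x1 := Y.1.toList.getD (1 - bn i) d
    let u := Classical.epsilon (fun v => v ∈ Y.2)
    let z := Classical.epsilon (IsChange D x0 x1 (bn δ) t.2 u false)
    (z, G.dist z x0)
  | P i j δ =>
    let x0 := Y.1.toList.getD i d
    let x1 := Y.1.toList.getD j d
    let u := Classical.epsilon (fun v => v ∈ Y.1 ∧ v ≠ x0 ∧ v ≠ x1)
    let z := Classical.epsilon (IsChange D x0 x1 (bn δ) t.2 u true)
    (z, G.dist z x0)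

lemma exists_min {r : V → V → Prop} (hirr : ∀ a, ¬ r a a) (htr : ∀ a b c, r a b → r b c → r a c)
    (S : Set V) (hS : S.Nonempty) : ∃ m ∈ S, ∀ w ∈ S, ¬ r w m := by
  have : IsTrans V r := ⟨htr⟩
  have : Std.Irrefl r := ⟨hirr⟩
  have wf : WellFounded r := Finite.wellFounded_of_trans_of_irrefl r
  exact ⟨wf.min S hS, wf.min_mem S hS, fun w hw => wf.not_lt_min S hw⟩

lemma exists_max {r : V → V → Prop} (hirr : ∀ a, ¬ r a a) (htr : ∀ a b c, r a b → r b c → r a c)
    (S : Set V) (hS : S.Nonempty) : ∃ m ∈ S, ∀ w ∈ S, ¬ r m w :=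
  exists_min (r := fun a b => r b a) hirr (fun a b c h1 h2 => htr c b a h2 h1) S hS

omit [Fintype V] in
lemma mem_toList_getD {s : Finset V} {x : V} (hx : x ∈ s) (d : V) :
    ∃ i < s.card, s.toList.getD i d = x := by
  rw [← Finset.mem_toList, List.mem_iff_getElem] at hx
  obtain ⟨i, hi, he⟩ := hx
  refine ⟨i, by rwa [Finset.length_toList] at hi, ?_⟩
  rw [List.getD_eq_getElem _ _ hi, he]

lemma pair_getD {x0 x1 : V} (h : x0 ≠ x1) (d : V) :
    ∃ i : Bool, ({x0, x1} : Finset V).toList.getD (bn i) d = x0 ∧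
      ({x0, x1} : Finset V).toList.getD (1 - bn i) d = x1 := by
  have hc : ({x0, x1} : Finset V).card = 2 := Finset.card_pair h
  obtain ⟨i, hi, hi'⟩ := mem_toList_getD (s := {x0, x1}) (x := x0) (by simp) d
  obtain ⟨j, hj, hj'⟩ := mem_toList_getD (s := {x0, x1}) (x := x1) (by simp) d
  rw [hc] at hi hj
  have hij : i ≠ j := by
    rintro rfl
    exact h (hi'.symm.trans hj')
  have : (i = 0 ∧ j = 1) ∨ (i = 1 ∧ j = 0) := by omega
  rcases this with ⟨rfl, rfl⟩ | ⟨rfl, rfl⟩
  · exact ⟨false, by simpa [bn] using hi', by simpa [bn] using hj'⟩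
  · exact ⟨true, by simpa [bn] using hi', by simpa [bn] using hj'⟩

/-- **Main theorem (abstract form)**. -/
theorem scheme_of_faceData (hD : ∀ x : V, Nonempty (FaceData G x g)) :
    HasProperScheme (balls G) (3 + (5 + g)) := by
  by_cases hV : Nonempty V
  swap
  · have hemp : IsEmpty {X // IsSample (balls G) X} := by
      constructor
      rintro ⟨X, e, ⟨c, _⟩, _⟩
      exact hV ⟨c⟩
    exact ⟨fun X => (hemp.false X).elim, fun Y => (hemp.false Y.1).elim, 3, 5 + g, le_rfl,
      fun X => (hemp.false X).elim, fun X => (hemp.false X).elim, fun X => (hemp.false X).elim,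
      fun X => (hemp.false X).elim, fun Y => (hemp.false Y.1).elim⟩
  let D : ∀ x0, FaceData G x0 g := fun x0 => (hD x0).some
  have hcard : Fintype.card (Tag × (Fin g → ZMod 2)) ≤ 2 ^ (5 + g) := by
    rw [Fintype.card_prod, Fintype.card_fun, ZMod.card, Fintype.card_fin, pow_add]
    exact Nat.mul_le_mul_right _ (card_tag.trans (by norm_num))
  apply scheme_of_decoders (balls G) 3 (5 + g) (Tag × (Fin g → ZMod 2)) hcard
    (fun t Y => ball G (decv D t Y).1 (decv D t Y).2) (fun t Y => ⟨_, _, rfl⟩)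
  rintro ⟨Xp, Xm⟩ ⟨e, ⟨c, r, rfl⟩, hXp, hXm⟩
  simp only at hXp hXm ⊢
  by_cases hXe : Xp.Nonempty
  swap
  · rw [Finset.not_nonempty_iff_eq_empty] at hXe
    subst hXe
    refine ⟨(∅, ∅), (Tag.emp, 0), by simp, by simp, by simp, by simp, ?_⟩
    rw [Set.disjoint_left]
    rintro v _ ⟨_, hv⟩
    have : (decv D (Tag.emp, 0) ((∅, ∅) : Finset V × Finset V)).2 = -1 := rfl
    rw [this] at hv
    omega
  obtain ⟨x0, hx0, hmax⟩ := Finset.exists_max_image Xp (fun x => G.dist c x) hXe
  set Gd : V → Prop := fun z => G.Reachable z x0 ∧ (∀ x ∈ Xp, z ∈ reg G x0 x) ∧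
    (∀ y ∈ Xm, z ∉ reg G x0 y) with hGd
  have hcG : Gd c := by
    refine ⟨(hXp hx0).1, fun x hx => ⟨(hXp hx).1, hmax x hx⟩, ?_⟩
    intro y hy hcy
    rw [Set.disjoint_left] at hXm
    apply hXm hy
    refine ⟨hcy.1, ?_⟩
    have h1 := (hXp hx0).2
    have h2 : (G.dist c y : ℤ) ≤ G.dist c x0 := by exact_mod_cast hcy.2
    exact h2.trans h1
  have hreal : ∀ z, Gd z → Realizes (ball G z (G.dist z x0)) (Xp, Xm) := by
    intro z hz
    refine ⟨?_, ?_⟩
    · intro x hx
      have := hz.2.1 x hx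
      exact ⟨this.1, by exact_mod_cast this.2⟩
    · rw [Set.disjoint_left]
      rintro y hy ⟨h1, h2⟩
      exact hz.2.2 y hy ⟨h1, by exact_mod_cast h2⟩
  obtain ⟨zs, hzs, hmin⟩ := Finset.exists_min_image (Finset.univ.filter Gd)
    (fun z => G.dist z x0) ⟨c, by simp [hcG]⟩
  rw [Finset.mem_filter] at hzs
  by_cases hzx : zs = x0
  · -- the ball of radius zero
    refine ⟨({x0}, ∅), (Tag.single, 0), by simpa using hx0, by simp, by simp, ?_⟩
    have e1 : decv D (Tag.single, 0) (({x0}, ∅) : Finset V × Finset V) = (x0, 0) := by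
      simp [decv]
    rw [e1]
    have := hreal x0 (hzx ▸ hzs.2)
    simpa using this
  -- frontier
  have hadj := par_adj G hzs.2.1 hzx
  have hpd := par_dist G hzs.2.1 hzx
  have hpr := par_reach G hzs.2.1
  have hnG : ¬ Gd (par G x0 zs) := by
    intro h
    have := hmin (par G x0 zs) (by simp [h])
    omega
  have hneg : ∀ y ∈ Xm, par G x0 zs ∉ reg G x0 y := by
    intro y hy
    apply not_reg_of_geod (hzs.2.2.2 y hy) hzs.2.1 hadj.reachable
    rw [SimpleGraph.dist_eq_one_iff_adj.mpr hadj]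
    omega
  have hpos : ∃ x1 ∈ Xp, par G x0 zs ∉ reg G x0 x1 := by
    by_contra hcon
    push Not at hcon
    exact hnG ⟨hpr, hcon, hneg⟩
  obtain ⟨x1, hx1, hpx1⟩ := hpos
  have hZ : IsZ G x0 x1 zs := ⟨hzs.2.1, hzx, hzs.2.2.1 x1 hx1, hpx1⟩
  have hx01 : x0 ≠ x1 := by
    rintro rfl
    exact hpx1 ⟨hpr, le_rfl⟩
  obtain ⟨δ, hδ⟩ : ∃ δ : Bool, G.dist zs x0 = G.dist zs x1 + bn δ := by
    have := hZ.dist_le
    by_cases h : G.dist zs x0 = G.dist zs x1
    · exact ⟨false, by simp [bn, h]⟩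
    · exact ⟨true, by simp [bn]; omega⟩
  set η := (D x0).hcls (mer G x0 x1 zs) with hη
  have hzT : zs ∈ ZT (D x0) x1 (bn δ) η := ⟨hZ, hδ, rfl⟩
  have hs := (exists_order' (D x0) x1 (bn δ) η).choose_spec
  obtain ⟨c', hc', hcmin⟩ := exists_min (r := ord D x0 x1 (bn δ) η) hs.2.1 hs.2.2.1
    {z | z ∈ ZT (D x0) x1 (bn δ) η ∧ Gd z} ⟨zs, hzT, hzs.2⟩
  by_cases hfirst : ∀ w, ¬ ord D x0 x1 (bn δ) η w c'
  · -- first element
    have hF : IsFirst D x0 x1 (bn δ) η c' := ⟨hc'.1, hfirst⟩
    obtain ⟨i, hi1, hi2⟩ := pair_getD hx01 (Classical.arbitrary V)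
    refine ⟨({x0, x1}, ∅), (Tag.A i δ, η), ?_, by simp, ?_, ?_⟩
    · intro v hv
      simp only [Finset.mem_insert, Finset.mem_singleton] at hv
      rcases hv with rfl | rfl
      · exact hx0
      · exact hx1
    · simp only [Finset.coe_empty, Set.union_empty, Set.ncard_coe_finset]
      exact (Finset.card_le_two).trans (by norm_num)
    · have e1 : decv D (Tag.A i δ, η) (({x0, x1}, ∅) : Finset V × Finset V) =
          (c', (G.dist c' x0 : ℤ)) := by
        simp only [decv, hi1, hi2]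
        have : Classical.epsilon (IsFirst D x0 x1 (bn δ) η) = c' :=
          isFirst_unique D (Classical.epsilon_spec ⟨c', hF⟩) hF
        rw [this]
      rw [e1]
      exact hreal c' hc'.2
  · push Not at hfirst
    obtain ⟨p, hp, hpmax⟩ := exists_max (r := ord D x0 x1 (bn δ) η) hs.2.1 hs.2.2.1
      {w | ord D x0 x1 (bn δ) η w c'} hfirst
    have hpT := (hs.1 p c' hp).1
    have hpn : ¬ Gd p := fun h => hcmin p ⟨hpT, h⟩ hp
    have hpcases : (∃ u ∈ Xp, p ∉ reg G x0 u) ∨ (∃ u ∈ Xm, p ∈ reg G x0 u) := by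
      by_contra hcon
      push Not at hcon
      exact hpn ⟨hpT.1.1, hcon.1, hcon.2⟩
    rcases hpcases with ⟨u, hu, hpu⟩ | ⟨u, hu, hpu⟩
    · -- positive witness
      have hux0 : u ≠ x0 := by
        rintro rfl
        exact hpu ⟨hpT.1.1, le_rfl⟩
      have hux1 : u ≠ x1 := by
        rintro rfl
        exact hpu hpT.1.2.2.1
      have hC : IsChange D x0 x1 (bn δ) η u true c' :=
        ⟨p, hp, hpmax, by simp [hc'.2.2.1 u hu], by simp [hpu]⟩
      obtain ⟨i, hi, hi'⟩ := mem_toList_getD (s := {x0, x1, u}) (x := x0) (by simp)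
        (Classical.arbitrary V)
      obtain ⟨j, hj, hj'⟩ := mem_toList_getD (s := {x0, x1, u}) (x := x1) (by simp)
        (Classical.arbitrary V)
      have h3 : ({x0, x1, u} : Finset V).card ≤ 3 := Finset.card_le_three
      refine ⟨({x0, x1, u}, ∅), (Tag.P ⟨i, by omega⟩ ⟨j, by omega⟩ δ, η), ?_, by simp, ?_, ?_⟩
      · intro v hv
        simp only [Finset.mem_insert, Finset.mem_singleton] at hv
        rcases hv with rfl | rfl | rfl
        · exact hx0
        · exact hx1
        · exact hu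
      · simp only [Finset.coe_empty, Set.union_empty, Set.ncard_coe_finset]
        exact h3
      · have e1 : decv D (Tag.P ⟨i, by omega⟩ ⟨j, by omega⟩ δ, η)
            (({x0, x1, u}, ∅) : Finset V × Finset V) = (c', (G.dist c' x0 : ℤ)) := by
          simp only [decv, hi', hj']
          have e2 : Classical.epsilon (fun v => v ∈ ({x0, x1, u} : Finset V) ∧ v ≠ x0 ∧ v ≠ x1)
              = u := by
            have hex : ∃ v, v ∈ ({x0, x1, u} : Finset V) ∧ v ≠ x0 ∧ v ≠ x1 :=
              ⟨u, by simp, hux0, hux1⟩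
            have key : ∀ v, (v ∈ ({x0, x1, u} : Finset V) ∧ v ≠ x0 ∧ v ≠ x1) → v = u := by
              rintro v ⟨h4, h5, h6⟩
              simp only [Finset.mem_insert, Finset.mem_singleton] at h4
              rcases h4 with h4 | h4 | h4
              · exact absurd h4 h5
              · exact absurd h4 h6
              · exact h4
            exact key _ (Classical.epsilon_spec hex)
          rw [e2]
          have : Classical.epsilon (IsChange D x0 x1 (bn δ) η u true) = c' :=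
            isChange_unique D (Classical.epsilon_spec ⟨c', hC⟩) hC
          rw [this]
        rw [e1]
        exact hreal c' hc'.2
    · -- negative witness
      have hC : IsChange D x0 x1 (bn δ) η u false c' :=
        ⟨p, hp, hpmax, by simp [hc'.2.2.2 u hu], by simp [hpu]⟩
      obtain ⟨i, hi1, hi2⟩ := pair_getD hx01 (Classical.arbitrary V)
      refine ⟨({x0, x1}, {u}), (Tag.N i δ, η), ?_, by simpa using hu, ?_, ?_⟩
      · intro v hv
        simp only [Finset.mem_insert, Finset.mem_singleton] at hv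
        rcases hv with rfl | rfl
        · exact hx0
        · exact hx1
      · have h3 : ({x0, x1, u} : Finset V).card ≤ 3 := Finset.card_le_three
        have h4 : ((({x0, x1} : Finset V) : Set V) ∪ (({u} : Finset V) : Set V)) =
            (({x0, x1, u} : Finset V) : Set V) := by
          ext v; simp; tauto
        rw [h4, Set.ncard_coe_finset]
        exact h3
      · have e1 : decv D (Tag.N i δ, η) (({x0, x1}, {u}) : Finset V × Finset V) =
            (c', (G.dist c' x0 : ℤ)) := by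
          simp only [decv, hi1, hi2]
          have e2 : Classical.epsilon (fun v => v ∈ ({u} : Finset V)) = u := by
            have hex : ∃ v, v ∈ ({u} : Finset V) := ⟨u, by simp⟩
            exact Finset.mem_singleton.mp (Classical.epsilon_spec hex)
          rw [e2]
          have : Classical.epsilon (IsChange D x0 x1 (bn δ) η u false) = c' :=
            isChange_unique D (Classical.epsilon_spec ⟨c', hC⟩) hC
          rw [this]
        rw [e1]
        exact hreal c' hc'.2

end Pool.Agent.H81.Balls
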