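import Pool.Agent.H81.Balls.Scheme

set_option autoImplicit false

open Classical Finset

namespace Pool.Agent.H81.Balls

universe u

variable {V : Type u}

/-- A (generalized) embedding scheme of a graph: a cyclic ordering `rot` of the darts (oriented
edges) leaving each vertex, and a signature telling which edges are twisted.  Such schemes
describe, up to homeomorphism, the cellular embeddings of the components of the graph in closed
surfaces; the surfaces are orientable if no edge is twisted. -/
structure EmbeddingScheme (G : SimpleGraph V) where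
  rot : Equiv.Perm G.Dart
  rot_fst : ∀ d, (rot d).fst = d.fst
  rot_cycle : ∀ d d' : G.Dart, d.fst = d'.fst → rot.SameCycle d d'
  twist : G.Dart → Bool
  twist_symm : ∀ d, twist d.symm = twist d

variable {G : SimpleGraph V}

namespace EmbeddingScheme

variable (S : EmbeddingScheme G)

/-- The two sides of a dart `d` are `(d, true)` (left) and `(d, false)` (right). The left side of
`d` and the right side of the next dart at the same vertex meet in a corner; the left side of an
untwisted dart is the right side of the reversed dart, for a twisted dart it is the left side. -/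
inductive SideRel : G.Dart × Bool → G.Dart × Bool → Prop
  | corner (d : G.Dart) : SideRel (d, true) (S.rot d, false)
  | along (d : G.Dart) (b : Bool) : SideRel (d, b) (d.symm, !(xor b (S.twist d)))

/-- Faces are the classes of sides. -/
def Face : Type _ := Quot S.SideRel

/-- The face at a side of a dart. -/
def face (d : G.Dart) (b : Bool) : S.Face := Quot.mk _ (d, b)

/-- The faces of the component of `x`. -/
def facesOf (x : V) : Set S.Face := {f | ∃ d b, G.Reachable x d.fst ∧ S.face d b = f}

/-- All components have Euler genus at most `g`: for the component of a non-isolated vertex `x`,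
`#vertices - #edges + #faces ≥ 2 - g`. -/
def EulerGenusLE (g : ℕ) : Prop :=
  ∀ x : V, (∃ y, G.Adj x y) →
    {e : Sym2 V | e ∈ G.edgeSet ∧ ∀ v ∈ e, G.Reachable x v}.ncard + 2 ≤
      {v : V | G.Reachable x v}.ncard + (S.facesOf x).ncard + g

lemma face_corner (d : G.Dart) : S.face d true = S.face (S.rot d) false :=
  Quot.sound (SideRel.corner d)

lemma face_along (d : G.Dart) (b : Bool) : S.face d b = S.face d.symm (!(xor b (S.twist d))) :=
  Quot.sound (SideRel.along d b)

/-- A chosen dart of an edge. -/
noncomputable def dartOf (e : Sym2 V) (h : ∃ d : G.Dart, d.edge = e) : G.Dart := h.choose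

/-- The faces at the two sides of an edge. -/
noncomputable def side (e : Sym2 V) (b : Bool) : Option S.Face :=
  if h : ∃ d : G.Dart, d.edge = e then some (S.face h.choose b) else none

lemma side_eq (d : G.Dart) :
    (∀ b, S.side d.edge b = some (S.face d b)) ∨
    (∃ t : Bool, ∀ b, S.side d.edge b = some (S.face d (!(xor b t)))) := by
  have h : ∃ d' : G.Dart, d'.edge = d.edge := ⟨d, rfl⟩
  have h1 : h.choose.edge = d.edge := h.choose_spec
  have h2 : ∀ b, S.side d.edge b = some (S.face h.choose b) := fun b => by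
    rw [side, dif_pos h]
  rw [SimpleGraph.dart_edge_eq_iff] at h1
  rcases h1 with h1 | h1
  · left; intro b; rw [h2, h1]
  · right
    refine ⟨S.twist h.choose, fun b => ?_⟩
    rw [h2, face_along, h1, SimpleGraph.Dart.symm_symm]

/-- A symmetric function of the two sides of an edge can be computed from any dart. -/
lemma side_add (K : Option S.Face → ZMod 2) (d : G.Dart) :
    K (S.side d.edge true) + K (S.side d.edge false) =
      K (some (S.face d true)) + K (some (S.face d false)) := by
  rcases S.side_eq d with h | ⟨t, h⟩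
  · rw [h, h]
  · rw [h, h]
    cases t
    · simp [add_comm]
    · simp

lemma side_mem (d : G.Dart) (b : Bool) : ∃ b', S.side d.edge b = some (S.face d b') := by
  rcases S.side_eq d with h | ⟨t, h⟩
  · exact ⟨b, h b⟩
  · exact ⟨_, h b⟩

lemma mem_side (d : G.Dart) (b : Bool) : ∃ b', S.side d.edge b' = some (S.face d b) := by
  rcases S.side_eq d with h | ⟨t, h⟩
  · exact ⟨b, h b⟩
  · refine ⟨!(xor b t), ?_⟩
    rw [h]
    cases b <;> cases t <;> rfl

variable [Fintype V]

lemma even (K : Option S.Face → ZMod 2) (v : V) :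
    ∑ u, (if G.Adj v u then K (S.side s(v, u) true) + K (S.side s(v, u) false) else 0) = 0 := by
  have h1 : ∑ u, (if G.Adj v u then K (S.side s(v, u) true) + K (S.side s(v, u) false) else 0)
      = ∑ d : G.Dart, (if d.fst = v then K (some (S.face d true)) + K (some (S.face d false))
        else 0) := by
    rw [← Finset.sum_filter, ← Finset.sum_filter]
    refine Finset.sum_bij' (fun u hu => (⟨(v, u), by simpa using hu⟩ : G.Dart))
      (fun d _ => d.snd) ?_ ?_ ?_ ?_ ?_
    · intro u hu; simp
    · intro d hd
      simp only [Finset.mem_filter, Finset.mem_univ, true_and] at hd ⊢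
      rw [← hd]; exact d.adj
    · intro u hu; rfl
    · intro d hd
      simp only [Finset.mem_filter, Finset.mem_univ, true_and] at hd
      subst hd; rfl
    · intro u hu
      exact S.side_add K ⟨(v, u), by simpa using hu⟩
  rw [h1]
  have h2 : ∀ d : G.Dart, (if d.fst = v then K (some (S.face d true)) +
      K (some (S.face d false)) else 0) =
      (if (S.rot d).fst = v then K (some (S.face (S.rot d) false)) else 0) +
      (if d.fst = v then K (some (S.face d false)) else 0) := by
    intro d
    rw [S.rot_fst, S.face_corner]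
    split_ifs <;> simp
  simp_rw [h2]
  rw [Finset.sum_add_distrib,
    Equiv.sum_comp S.rot (fun d : G.Dart => if d.fst = v then K (some (S.face d false)) else 0)]
  exact CharTwo.add_self_eq_zero _

lemma link (J : Option S.Face → ZMod 2) (v : V)
    (h : ∀ u, G.Adj v u → J (S.side s(v, u) true) = J (S.side s(v, u) false))
    (d d' : G.Dart) (b b' : Bool) (hd : d.fst = v) (hd' : d'.fst = v) :
    J (some (S.face d b)) = J (some (S.face d' b')) := by
  have h1 : ∀ d : G.Dart, d.fst = v → J (some (S.face d true)) = J (some (S.face d false)) := by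
    intro d hd
    have h2 := S.side_add J d
    have h3 : d.edge = s(v, d.snd) := by rw [← hd]; rfl
    have h4 := h d.snd (by rw [← hd]; exact d.adj)
    rw [h3, h4, CharTwo.add_self_eq_zero] at h2
    exact zmod2_add_eq_zero.mp h2.symm
  have h2 : ∀ d : G.Dart, d.fst = v → J (some (S.face (S.rot d) false)) =
      J (some (S.face d false)) := by
    intro d hd
    rw [← S.face_corner, h1 d hd]
  have h3 : ∀ n : ℕ, ∀ d : G.Dart, d.fst = v → ((S.rot ^ n) d).fst = v ∧
      J (some (S.face ((S.rot ^ n) d) false)) = J (some (S.face d false)) := by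
    intro n
    induction n with
    | zero => intro d hd; exact ⟨hd, rfl⟩
    | succ n ih =>
      intro d hd
      rw [pow_succ', Equiv.Perm.mul_apply]
      obtain ⟨h4, h5⟩ := ih d hd
      exact ⟨by rw [S.rot_fst, h4], by rw [h2 _ h4, h5]⟩
  obtain ⟨n, hn⟩ := (S.rot_cycle d d' (by rw [hd, hd'])).exists_nat_pow_eq
  have h4 := (h3 n d hd).2
  rw [hn] at h4
  have h5 : ∀ d : G.Dart, d.fst = v → ∀ b, J (some (S.face d b)) = J (some (S.face d false)) := by
    intro d hd b
    cases b
    · rfl
    · exact h1 d hd
  rw [h5 d hd, h5 d' hd', h4]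

lemma link' (J : Option S.Face → ZMod 2) (v : V)
    (h : ∀ u, G.Adj v u → J (S.side s(v, u) true) = J (S.side s(v, u) false))
    (u u' : V) (hu : G.Adj v u) (hu' : G.Adj v u') :
    J (S.side s(v, u) true) = J (S.side s(v, u') true) := by
  obtain ⟨b, hb⟩ := S.side_mem ⟨(v, u), hu⟩ true
  obtain ⟨b', hb'⟩ := S.side_mem ⟨(v, u'), hu'⟩ true
  have e1 : S.side s(v, u) true = some (S.face ⟨(v, u), hu⟩ b) := hb
  have e2 : S.side s(v, u') true = some (S.face ⟨(v, u'), hu'⟩ b') := hb'
  rw [e1, e2]
  exact S.link J v h _ _ b b' rfl rfl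

/-! ### Homology classes from the Euler characteristic -/

omit [Fintype V] in
lemma exists_class {K E : Type*} [Field K] [AddCommGroup E] [Module K E]
    [FiniteDimensional K E] (Z B : Submodule K E) (hBZ : B ≤ Z) (g : ℕ)
    (h : Module.finrank K Z ≤ Module.finrank K B + g) :
    ∃ φ : E →ₗ[K] (Fin g → K), ∀ c ∈ Z, φ c = 0 → c ∈ B := by
  set f : Z →ₗ[K] (E ⧸ B) := B.mkQ.comp Z.subtype with hf
  have h1 := LinearMap.finrank_range_add_finrank_ker f
  have h2 : LinearMap.ker f = B.comap Z.subtype := by
    rw [hf, LinearMap.ker_comp, Submodule.ker_mkQ]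
  have h3 : Module.finrank K (LinearMap.ker f) = Module.finrank K B := by
    rw [h2]
    exact (Submodule.comapSubtypeEquivOfLe hBZ).finrank_eq
  have h4 : Module.finrank K (LinearMap.range f) ≤ Module.finrank K (Fin g → K) := by
    rw [Module.finrank_fin_fun]
    omega
  obtain ⟨ψ, hψ⟩ := finrank_le_iff_exists_linearMap.mp h4
  obtain ⟨χ, hχ⟩ := LinearMap.exists_extend ψ
  refine ⟨χ.comp B.mkQ, ?_⟩
  intro c hc hc0
  have h5 : B.mkQ c ∈ LinearMap.range f := ⟨⟨c, hc⟩, rfl⟩
  have h6 : ψ ⟨B.mkQ c, h5⟩ = 0 := by
    rw [← hχ]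
    exact hc0
  have h7 : (⟨B.mkQ c, h5⟩ : LinearMap.range f) = 0 := hψ (by rw [h6, map_zero])
  have h8 : B.mkQ c = 0 := congrArg Subtype.val h7
  exact (Submodule.Quotient.mk_eq_zero B).mp h8

variable (G) in
/-- Edges of the component of `x`. -/
abbrev EC (x : V) : Type _ := {e : Sym2 V // e ∈ G.edgeSet ∧ ∀ v ∈ e, G.Reachable x v}

variable (G) in
/-- Vertices of the component of `x`. -/
abbrev VC (x : V) : Type _ := {v : V // G.Reachable x v}

/-- Faces of the component of `x`. -/
abbrev FC (x : V) : Type _ := {f : S.Face // f ∈ S.facesOf x}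

noncomputable instance : Fintype S.Face := by
  have : Finite S.Face := Quot.finite _
  exact Fintype.ofFinite _

omit [Fintype V] in
lemma mem_EC {x v u : V} (h : G.Adj v u) (hv : G.Reachable x v) :
    s(v, u) ∈ G.edgeSet ∧ ∀ w ∈ s(v, u), G.Reachable x w := by
  refine ⟨h, ?_⟩
  intro w hw
  rw [Sym2.mem_iff] at hw
  rcases hw with rfl | rfl
  · exact hv
  · exact hv.trans h.reachable

omit [Fintype V] in
lemma side_facesOf {x : V} (e : EC G x) (b : Bool) :
    ∃ f ∈ S.facesOf x, S.side e.1 b = some f := by
  obtain ⟨e, he, hr⟩ := e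
  induction e using Sym2.ind with
  | _ v u =>
    obtain ⟨b', hb'⟩ := S.side_mem ⟨(v, u), he⟩ b
    exact ⟨_, ⟨⟨(v, u), he⟩, b', hr v (Sym2.mem_mk_left v u), rfl⟩, hb'⟩

/-- Vertex-edge incidence matrix of the component. -/
noncomputable def MM (G : SimpleGraph V) (x : V) : Matrix (VC G x) (EC G x) (ZMod 2) :=
  fun v e => if v.1 ∈ e.1 then 1 else 0

/-- Edge-face incidence matrix of the component. -/
noncomputable def NN (x : V) : Matrix (EC G x) (S.FC x) (ZMod 2) :=
  fun e f => (if S.side e.1 true = some f.1 then 1 else 0) +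
    (if S.side e.1 false = some f.1 then 1 else 0)

/-- Extension of a function on the faces of the component. -/
noncomputable def extF {x : V} (K : S.FC x → ZMod 2) : Option S.Face → ZMod 2
  | none => 0
  | some f => if h : f ∈ S.facesOf x then K ⟨f, h⟩ else 0

lemma NN_mulVec {x : V} (K : S.FC x → ZMod 2) (e : EC G x) :
    (S.NN x).mulVec K e = S.extF K (S.side e.1 true) + S.extF K (S.side e.1 false) := by
  have key : ∀ b, ∑ f : S.FC x, (if S.side e.1 b = some f.1 then 1 else 0) * K f =
      S.extF K (S.side e.1 b) := by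
    intro b
    obtain ⟨f, hf, hfe⟩ := S.side_facesOf e b
    rw [hfe, Finset.sum_eq_single ⟨f, hf⟩]
    · simp [extF, hf]
    · intro f' _ hne
      rw [if_neg, zero_mul]
      intro h
      apply hne
      exact Subtype.ext (Option.some.inj h).symm
    · intro h; exact absurd (Finset.mem_univ _) h
  simp only [Matrix.mulVec, dotProduct, NN, add_mul, Finset.sum_add_distrib]
  rw [key, key]

lemma MM_mulVec {x : V} (c : Sym2 V → ZMod 2)
    (hc : ∀ v u, c s(v, u) ≠ 0 → G.Adj v u ∧ G.Reachable x v) (v : VC G x) :
    (MM G x).mulVec (fun e => c e.1) v = ∑ u, c s(v.1, u) := by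
  simp only [Matrix.mulVec, dotProduct, MM, ite_mul, one_mul, zero_mul]
  symm
  refine Finset.sum_bij_ne_zero (fun u _ hu => (⟨s(v.1, u), mem_EC (hc v.1 u hu).1 v.2⟩ :
    EC G x)) ?_ ?_ ?_ ?_
  · intro u _ hu
    exact Finset.mem_univ _
  · intro u _ hu u' _ hu' h
    have := congrArg Subtype.val h
    exact (Sym2.congr_right.mp this)
  · intro e _ he
    have h1 : v.1 ∈ e.1 := by
      by_contra h
      rw [if_neg h] at he
      exact he rfl
    rw [if_pos h1] at he
    obtain ⟨u, hu⟩ := Sym2.mem_iff_exists.mp h1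
    refine ⟨u, Finset.mem_univ _, ?_, ?_⟩
    · rw [← hu]; exact he
    · exact Subtype.ext hu.symm
  · intro u _ hu
    rw [if_pos (Sym2.mem_mk_left _ _)]

lemma ker_MMT {x : V} :
    Module.finrank (ZMod 2) (LinearMap.ker (MM G x).transpose.mulVecLin) ≤ 1 := by
  have h : LinearMap.ker (MM G x).transpose.mulVecLin ≤
      Submodule.span (ZMod 2) {(fun _ => 1 : VC G x → ZMod 2)} := by
    intro f hf
    rw [LinearMap.mem_ker] at hf
    have h1 : ∀ v u (hvu : G.Adj v u) (hv : G.Reachable x v),
        f ⟨v, hv⟩ = f ⟨u, hv.trans hvu.reachable⟩ := by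
      intro v u hvu hv
      have h2 := congrFun hf ⟨s(v, u), mem_EC hvu hv⟩
      simp only [Matrix.mulVecLin_apply, Matrix.mulVec, dotProduct, Matrix.transpose_apply, MM,
        ite_mul, one_mul, zero_mul, Pi.zero_apply] at h2
      rw [← Finset.sum_filter] at h2
      have h3 : Finset.univ.filter (fun w : VC G x => w.1 ∈ s(v, u)) =
          {⟨v, hv⟩, ⟨u, hv.trans hvu.reachable⟩} := by
        ext w
        simp only [Finset.mem_filter, Finset.mem_univ, true_and, Sym2.mem_iff,
          Finset.mem_insert, Finset.mem_singleton, Subtype.ext_iff]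
      rw [h3, Finset.sum_pair] at h2
      · exact zmod2_add_eq_zero.mp h2
      · intro h; exact hvu.ne (congrArg Subtype.val h)
    have h4 : ∀ v (hv : G.Reachable x v), f ⟨v, hv⟩ = f ⟨x, SimpleGraph.Reachable.refl x⟩ := by
      intro v hv
      obtain ⟨p⟩ := id hv
      have : ∀ (a b : V) (p : G.Walk a b) (ha : G.Reachable x a) (hb : G.Reachable x b),
          f ⟨a, ha⟩ = f ⟨b, hb⟩ := by
        intro a b p
        induction p with
        | nil => intro _ _; rfl
        | cons h q ih =>
          intro ha hb
          rw [h1 _ _ h ha]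
          exact ih _ hb
      exact (this x v p (SimpleGraph.Reachable.refl x) hv).symm
    rw [Submodule.mem_span_singleton]
    refine ⟨f ⟨x, SimpleGraph.Reachable.refl x⟩, ?_⟩
    funext v
    simp [h4 v.1 v.2]
  refine (Submodule.finrank_mono h).trans ?_
  have := finrank_span_le_card (R := ZMod 2) ({(fun _ => 1 : VC G x → ZMod 2)} : Set _)
  simpa using this

lemma ker_NN {x : V} :
    Module.finrank (ZMod 2) (LinearMap.ker (S.NN x).mulVecLin) ≤ 1 := by
  have h : LinearMap.ker (S.NN x).mulVecLin ≤
      Submodule.span (ZMod 2) {(fun _ => 1 : S.FC x → ZMod 2)} := by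
    intro K hK
    rw [LinearMap.mem_ker] at hK
    have h1 : ∀ v, G.Reachable x v → ∀ u, G.Adj v u →
        S.extF K (S.side s(v, u) true) = S.extF K (S.side s(v, u) false) := by
      intro v hv u hvu
      have h2 := congrFun hK ⟨s(v, u), mem_EC hvu hv⟩
      rw [Matrix.mulVecLin_apply, NN_mulVec] at h2
      exact zmod2_add_eq_zero.mp h2
    have h2 : ∀ (a b : V) (p : G.Walk a b), G.Reachable x a → ∀ d d' : G.Dart, ∀ i j : Bool,
        d.fst = a → d'.fst = b →
        S.extF K (some (S.face d i)) = S.extF K (some (S.face d' j)) := by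
      intro a b p
      induction p with
      | nil =>
        intro ha d d' i j hd hd'
        exact S.link _ _ (h1 _ ha) d d' i j hd hd'
      | @cons a c b h q ih =>
        intro ha d d' i j hd hd'
        rw [S.link _ _ (h1 _ ha) d ⟨(a, c), h⟩ i true hd rfl, S.face_along]
        exact ih (ha.trans h.reachable) _ d' _ j rfl hd'
    rw [Submodule.mem_span_singleton]
    by_cases hne : Nonempty (S.FC x)
    · obtain ⟨f0, d0, b0, hd0, rfl⟩ := hne
      refine ⟨K ⟨S.face d0 b0, d0, b0, hd0, rfl⟩, ?_⟩
      funext f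
      obtain ⟨f, d, b, hd, rfl⟩ := f
      obtain ⟨p⟩ := hd0.symm.trans hd
      have h3 := h2 _ _ p hd0 d0 d b0 b rfl rfl
      have h4 : S.extF K (some (S.face d0 b0)) = K ⟨S.face d0 b0, d0, b0, hd0, rfl⟩ :=
        dif_pos _
      have h5 : S.extF K (some (S.face d b)) = K ⟨S.face d b, d, b, hd, rfl⟩ :=
        dif_pos _
      rw [h4, h5] at h3
      simp [h3]
    · refine ⟨0, ?_⟩
      funext f
      exact absurd ⟨f⟩ hne
  refine (Submodule.finrank_mono h).trans ?_
  have := finrank_span_le_card (R := ZMod 2) ({(fun _ => 1 : S.FC x → ZMod 2)} : Set _)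
  simpa using this

lemma nonempty_faceData {g : ℕ} (hg : S.EulerGenusLE g) (x : V) :
    Nonempty (FaceData.{u, u} G x g) := by
  by_cases hx : ∃ y, G.Adj x y
  swap
  · refine ⟨⟨Option S.Face, S.side, fun K v _ => S.even K v,
      fun J v _ h u u' hu hu' => S.link' J v h u u' hu hu', 0, ?_⟩⟩
    intro c _ _ _
    refine ⟨0, ?_⟩
    intro v u hvu hv
    exfalso
    apply hx
    obtain ⟨p⟩ := hv
    cases p with
    | nil => exact ⟨u, hvu⟩
    | cons h q => exact ⟨_, h⟩
  have hgen := hg x hx
  -- cardinalities
  have cE : {e : Sym2 V | e ∈ G.edgeSet ∧ ∀ v ∈ e, G.Reachable x v}.ncard =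
      Fintype.card (EC G x) := by
    rw [← Nat.card_coe_set_eq, Nat.card_eq_fintype_card]; exact Fintype.card_congr (Equiv.refl _)
  have cV : {v : V | G.Reachable x v}.ncard = Fintype.card (VC G x) := by
    rw [← Nat.card_coe_set_eq, Nat.card_eq_fintype_card]; rfl
  have cF : (S.facesOf x).ncard = Fintype.card (S.FC x) := by
    rw [← Nat.card_coe_set_eq, Nat.card_eq_fintype_card]
  rw [cE, cV, cF] at hgen
  -- dimension of the cycle space and of the space of boundaries
  have d1 := LinearMap.finrank_range_add_finrank_ker (MM G x).mulVecLin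
  have d2 := LinearMap.finrank_range_add_finrank_ker (MM G x).transpose.mulVecLin
  have d3 := LinearMap.finrank_range_add_finrank_ker (S.NN x).mulVecLin
  rw [Module.finrank_fintype_fun_eq_card] at d1 d2 d3
  have d4 : Module.finrank (ZMod 2) (LinearMap.range (MM G x).transpose.mulVecLin) =
      Module.finrank (ZMod 2) (LinearMap.range (MM G x).mulVecLin) :=
    Matrix.rank_transpose (MM G x)
  have d5 := ker_MMT (G := G) (x := x)
  have d6 := S.ker_NN (x := x)
  set Z := LinearMap.ker (MM G x).mulVecLin with hZ
  set B := LinearMap.range (S.NN x).mulVecLin with hB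
  have hBZ : B ≤ Z := by
    rintro _ ⟨K, rfl⟩
    rw [hZ, LinearMap.mem_ker, Matrix.mulVecLin_apply, Matrix.mulVecLin_apply]
    funext v
    -- the chain of the boundary of `K`
    set c : Sym2 V → ZMod 2 := fun e =>
      if (e ∈ G.edgeSet ∧ ∀ v ∈ e, G.Reachable x v) then
        S.extF K (S.side e true) + S.extF K (S.side e false) else 0 with hc
    have h1 : (S.NN x).mulVec K = fun e : EC G x => c e.1 := by
      funext e
      rw [NN_mulVec, hc]
      simp only
      rw [if_pos e.2]
    rw [h1, MM_mulVec c]
    · rw [Pi.zero_apply, ← S.even (S.extF K) v.1]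
      apply Finset.sum_congr rfl
      intro u _
      by_cases hu : G.Adj v.1 u
      · rw [if_pos hu, hc]
        simp only
        rw [if_pos (mem_EC hu v.2)]
      · rw [if_neg hu, hc]
        simp only
        rw [if_neg]
        rintro ⟨h, _⟩
        exact hu h
    · intro v u h
      by_contra hcon
      apply h
      simp only [hc]
      rw [if_neg]
      rintro ⟨h2, h3⟩
      exact hcon ⟨h2, h3 v (Sym2.mem_mk_left v u)⟩
  obtain ⟨φ, hφ⟩ := exists_class Z B hBZ g (by omega)
  set res : (Sym2 V → ZMod 2) →+ (EC G x → ZMod 2) :=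
    { toFun := fun c e => c e.1
      map_zero' := rfl
      map_add' := fun _ _ => rfl } with hres
  refine ⟨⟨Option S.Face, S.side, fun K v _ => S.even K v,
    fun J v _ h u u' hu hu' => S.link' J v h u u' hu hu', φ.toAddMonoidHom.comp res, ?_⟩⟩
  intro c hc1 hc2 hc3
  have h1 : (fun e : EC G x => c e.1) ∈ Z := by
    rw [hZ, LinearMap.mem_ker, Matrix.mulVecLin_apply]
    funext v
    rw [MM_mulVec c hc2]
    exact hc1 v.1
  have h2 : φ (fun e : EC G x => c e.1) = 0 := hc3
  obtain ⟨K, hK⟩ := hφ _ h1 h2
  refine ⟨S.extF K, ?_⟩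
  intro v u hvu hv
  have h3 := congrFun hK ⟨s(v, u), mem_EC hvu hv⟩
  rw [Matrix.mulVecLin_apply, NN_mulVec] at h3
  exact h3.symm

end EmbeddingScheme

/-- Balls in graphs of bounded Euler genus have proper sample compression schemes of bounded
size. -/
theorem scheme_of_embedding [Fintype V] (S : EmbeddingScheme G) {g : ℕ}
    (hg : S.EulerGenusLE g) : HasProperScheme (balls G) (8 + g) := by
  have := scheme_of_faceData.{u, u} (fun x => S.nonempty_faceData hg x)
  have h : 3 + (5 + g) = 8 + g := by omega
  rwa [h] at this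

end Pool.Agent.H81.Balls
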